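import Pool.Agent.N121.MK.Dom

/-!
# Relations given by arrays of integers, at the scaled points
-/

set_option autoImplicit false
set_option linter.unusedSectionVars false

open Complex Set Filter Topology NumberField MeasureTheory

namespace Pool.Agent.N121.MK

open Pool.Agent.Y118.HP (qm bm dl dl_ne perC)
open Pool.Agent.Y890.MV
open Pool.Agent.Y890.SM
open Pool.Agent.N207.UH (half_mul half_inv half_ne)
open Pool.Agent.N121.AH (mi mm cst UU PA PG U2 fp TorG rs PM scp rs_PM q0 q0_map er ep perG perG_eq scf scf_scale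
  scf_ne lead_ne sc_mem er_scale rs_tor u0 u0_ne w0 bq ahF)
open Pool.Agent.N121.BF (Lm Lm_smul LmC LmC_apply bfF sbl sh Lm_sh sh_self evX_sbl XB F0_tor Q_eval)
open Pool.Agent.N121.OC (Fr fr PT PX PX_scale fA exX rsT exqT exqT_le exLT arT arT_scale rsT_inv full_free)

section integral

variable {n : ℕ}

/-- a branch of the square root of `c ∏ (x - e i)` on the segment from `e (k - 1)` to a point in position `k` -/
noncomputable def rtZ (c : ℂ) (e : Fin (n + 1) → ℂ) (k : Fin (n + 2)) (x : ℂ) : ℂ :=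
  scf n c * (w0 ^ (n + 1) * Complex.I ^ ((k : ℕ) + 1)) * rS e k x

/-- the integral `∫ x ^ j dx / y` from the root `e (k - 1)` (or `e 0`) to the point `z` in position `k` -/
noncomputable def mkI (c : ℂ) (e : Fin (n + 1) → ℂ) (k : Fin (n + 2)) (z : ℂ) (j : ℕ) : ℂ :=
  ∫ t in (0 : ℝ)..1, (pt e k z t) ^ j / rtZ c e k (pt e k z t) * (2 * (z - e (bs k)) * t)

theorem mkI_eq {c : ℂ} (hc : c ≠ 0) {e : Fin (n + 1) → ℂ} (he : e ∈ OrdL n) {k : Fin (n + 2)} {z : ℂ}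
    (hz : z ∈ Ch e k) (j : ℕ) : mkI c e k z j = Kc n k c * abJ e k z j := by
  set κ := scf n c * (w0 ^ (n + 1) * Complex.I ^ ((k : ℕ) + 1)) with hκ
  have hκ0 : κ ≠ 0 := mul_ne_zero (scf_ne hc) (mul_ne_zero (pow_ne_zero _ Pool.Agent.N121.AH.w0_ne)
    (pow_ne_zero _ Complex.I_ne_zero))
  have hK : Kc n k c = κ⁻¹ := by
    unfold Kc
    rw [hκ]
    exact (mul_inv _ _).symm
  set s := sg k (bs k) with hs
  set r := (ag e k (bs k) z / u0) ^ (1 / 2 : ℂ) with hr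
  have hza : ag e k (bs k) z / u0 ≠ 0 := ne_of (ag_pos hz (bs k))
  have hr0 : r ≠ 0 := half_ne hza
  have h8 : z - e (bs k) = s * u0 * (r * r) := by
    rw [hr, half_mul hza]
    unfold ag
    rw [← hs]
    have h9 : s * u0 * (s * (z - e (bs k)) / u0) = (s * s) * (z - e (bs k)) * (u0 / u0) := by ring
    rw [h9, sg_sq, div_self u0_ne]
    ring
  unfold mkI abJ
  rw [hK, ← intervalIntegral.integral_const_mul, ← intervalIntegral.integral_const_mul]
  refine intervalIntegral.integral_congr_ae (Eventually.of_forall fun t ht => ?_)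
  rw [uIoc_of_le zero_le_one] at ht
  have ht0 : (t : ℂ) ≠ 0 := by exact_mod_cast ht.1.ne'
  have ht' : t ∈ Icc (0 : ℝ) 1 := ⟨ht.1.le, ht.2⟩
  -- the root along the path
  have h1 : rG e k (pt e k z t) * rS e k (pt e k z t) = t * r := by
    have h2 : (ag e k (bs k) (pt e k z t) / u0) ^ (1 / 2 : ℂ) = t * r := by
      have h5 : ag e k (bs k) (pt e k z t) / u0 = ((t ^ 2 : ℝ) : ℂ) * (ag e k (bs k) z / u0) := by
        unfold ag pt
        push_cast
        ring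
      have h7 : ((t ^ 2 : ℝ) : ℂ) ^ (1 / 2 : ℂ) = t := by
        have h8 : (1 / 2 : ℂ) = ((1 / 2 : ℝ) : ℂ) := by push_cast; rfl
        rw [h8, ← ofReal_cpow (sq_nonneg t), ← Real.sqrt_eq_rpow, Real.sqrt_sq ht.1.le]
      rw [h5, hr, ← h7]
      have h9 : ((t ^ 2 : ℝ) : ℂ) ≠ 0 := by exact_mod_cast (pow_pos ht.1 2).ne'
      rw [cpow_def_of_ne_zero (mul_ne_zero h9 hza), cpow_def_of_ne_zero h9, cpow_def_of_ne_zero hza, ← exp_add,
        log_ofReal_mul (pow_pos ht.1 2) hza, ofReal_log (sq_nonneg t)]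
      congr 1
      ring
    unfold rG rS
    rw [← Finset.mul_prod_erase _ _ (Finset.mem_univ (bs k)), mul_left_comm, ← Finset.prod_mul_distrib]
    rw [Finset.prod_eq_one, mul_one, h2]
    intro i hi
    exact half_inv (ne_of (ag_pt_pos he hz (Finset.ne_of_mem_erase hi) ht'))
  have h2 : rS e k (pt e k z t) ≠ 0 := by
    intro h0
    rw [h0, mul_zero] at h1
    exact mul_ne_zero ht0 hr0 h1.symm
  have h3 : rG e k (pt e k z t) = t * r / rS e k (pt e k z t) := by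
    rw [eq_div_iff h2, h1]
  unfold rtZ
  rw [← hκ, h3, h8, ← hr, ← hs]
  field_simp

theorem rtZ_sq {c : ℂ} (hc : c ≠ 0) (e : Fin (n + 1) → ℂ) (k : Fin (n + 2)) (x : ℂ) :
    rtZ c e k x ^ 2 = c * ∏ i, (x - e i) := by
  have h0 : ∀ z : ℂ, (z ^ (1 / 2 : ℂ)) ^ 2 = z := by
    intro z
    rcases eq_or_ne z 0 with rfl | hz
    · rw [zero_cpow (by norm_num)]
      simp
    · rw [sq, half_mul hz]
  unfold rtZ rS
  rw [mul_pow, mul_pow, mul_pow, Pool.Agent.N121.AH.scf_sq hc, ← pow_mul, ← pow_mul, ← Finset.prod_pow]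
  simp only [h0]
  have h1 : ∏ i : Fin (n + 1), ag e k i x / u0 = (∏ i : Fin (n + 1), sg k i) * (∏ i, (x - e i)) / u0 ^ (n + 1) := by
    unfold ag
    rw [Finset.prod_div_distrib, Finset.prod_mul_distrib, Finset.prod_const, Finset.card_univ, Fintype.card_fin]
  have h2 : (∏ i : Fin (n + 1), sg k i) = (-1) ^ (n + 1 - (k : ℕ)) := by
    unfold sg
    rw [Finset.prod_ite, Finset.prod_const_one, one_mul, Finset.prod_const]
    congr 1
    have h3 : (Finset.univ.filter fun i : Fin (n + 1) => (i : ℕ) < (k : ℕ)).card = k := by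
      have h4 := k.2
      rw [Fin.card_filter_val_lt]
      omega
    have h5 := Finset.card_filter_add_card_filter_not (s := (Finset.univ : Finset (Fin (n + 1)))) (fun i => (i : ℕ) < (k : ℕ))
    rw [h3, Finset.card_univ, Fintype.card_fin] at h5
    omega
  have h3 : w0 ^ ((n + 1) * 2) = u0 ^ (n + 1) := by
    rw [mul_comm, pow_mul, Pool.Agent.N121.AH.w0_sq]
    rfl
  have h4 : Complex.I ^ (((k : ℕ) + 1) * 2) = (-1) ^ ((k : ℕ) + 1) := by
    rw [mul_comm, pow_mul, Complex.I_sq]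
  have h5 : (-1 : ℂ) ^ n * (-1) ^ ((k : ℕ) + 1) * (-1) ^ (n + 1 - (k : ℕ)) = 1 := by
    rw [← pow_add, ← pow_add]
    have h6 : n + ((k : ℕ) + 1) + (n + 1 - (k : ℕ)) = 2 * (n + 1) := by
      have := k.2
      omega
    rw [h6, pow_mul]
    norm_num
  rw [h1, h2, h3, h4]
  have h6 : u0 ^ (n + 1) ≠ 0 := pow_ne_zero _ u0_ne
  field_simp
  linear_combination (∏ i, (x - e i)) * h5

end integral

variable {ι : Type} {n : ι → ℕ} {m : ι → ℕ} {q : ℕ} {w : Fin (q + 1) → ℂ} {hw : w 0 = 1}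

/-- the indices of all periods -/
abbrev EM (n m : ι → ℕ) : Type := Ix (mi n) ⊕ (Fr n ⊕ Mk n m)

/-- the signs of the exponents -/
def exM (n m : ι → ℕ) : EM n m → Bool := Sum.elim (fun p => decide ((p.2.2 : ℕ) < n p.1 / 2)) (fun _ => true)

/-- the abelian integrals up to the marked points -/
noncomputable def MT (n m : ι → ℕ) (a : (Σ i, Fin (n i + 2)) → ℂ) (e : ∀ i, Fin (n i + 1) → ℂ) (c : Ps n m)
    (z : Sm m → ℂ) (s : Mk n m) : ℂ :=
  mkI (a ⟨s.1.1, Fin.last (n s.1.1 + 1)⟩) (e s.1.1) (c s.1) (z s.1) s.2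

/-- all periods -/
noncomputable def PXM (n m : ι → ℕ) (a : (Σ i, Fin (n i + 2)) → ℂ) (e : ∀ i, Fin (n i + 1) → ℂ) (c : Ps n m)
    (z : Sm m → ℂ) : EM n m → ℂ :=
  Sum.elim (fun p => PM n a e p.1 p.2.1 p.2.2) (Sum.elim (PT n a e) (MT n m a e c z))

/-- the scaled point -/
def scx (s : ℝ) (x : XX n m q → ℂ) (p : XX n m q) : ℂ := ((s ^ 2 : ℝ) : ℂ) * x p

theorem cA_scx (s : ℝ) (x : XX n m q → ℂ) : cA w (scx s x) = scp n s (cA w x) := by
  have h1 := Lm_smul w ((s ^ 2 : ℝ) : ℂ) (fun p => x (Sum.inl p))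
  exact h1

theorem cU_scx (s : ℝ) (x : XX n m q → ℂ) (t : Sm m) : cU w (scx s x) t = ((s ^ 2 : ℝ) : ℂ) * cU w x t := by
  have h1 := congrFun (Lm_smul w ((s ^ 2 : ℝ) : ℂ) (fun p => x (Sum.inr p))) (t, 0)
  exact h1

theorem cV_scx (s : ℝ) (x : XX n m q → ℂ) (t : Sm m) : cV w (scx s x) t = ((s ^ 2 : ℝ) : ℂ) * cV w x t := by
  have h1 := congrFun (Lm_smul w ((s ^ 2 : ℝ) : ℂ) (fun p => x (Sum.inr p))) (t, 1)
  exact h1

theorem cZ_scx {s : ℝ} (hs : 0 < s) (x : XX n m q → ℂ) : cZ w (scx s x) = cZ w x := by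
  funext t
  unfold cZ
  rw [cU_scx, cV_scx]
  have h0 : ((s ^ 2 : ℝ) : ℂ) ≠ 0 := by exact_mod_cast (pow_pos hs 2).ne'
  rw [mul_div_mul_left _ _ h0]

section scale

variable [Fintype ι] [DecidableEq ι]

/-- **scaling of the periods** -/
theorem PXM_scale {s : ℝ} (hs : 0 < s) {c : Ps n m} {x : XX n m q → ℂ} (hx : x ∈ UM w c) :
    PXM n m (cA w (scx s x)) (fun i => er (pj (cA w (scx s x)) i)) c (cZ w (scx s x)) = rsT (exM n m) s (FM w c x) := by
  rw [cA_scx, cZ_scx hs]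
  have h1 := PX_scale hs hx.1
  funext t
  rcases t with t | t | t
  · exact congrFun h1 (Sum.inl t)
  · exact congrFun h1 (Sum.inr t)
  · have hxi := hx.1 t.1.1
    have hc := lead_ne hxi
    have h2 : er (pj (scp n s (cA w x)) t.1.1) = er (pj (cA w x) t.1.1) := er_scale hs hxi
    have h3 : (scp n s (cA w x)) ⟨t.1.1, Fin.last (n t.1.1 + 1)⟩ =
      ((s ^ 2 : ℝ) : ℂ) * pj (cA w x) t.1.1 (Fin.last (n t.1.1 + 1)) := rfl
    have h4 : ((s ^ 2 : ℝ) : ℂ) ≠ 0 := by exact_mod_cast (pow_pos hs 2).ne'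
    show mkI ((scp n s (cA w x)) ⟨t.1.1, Fin.last (n t.1.1 + 1)⟩) (er (pj (scp n s (cA w x)) t.1.1)) (c t.1)
      (cZ w x t.1) t.2 = (s : ℂ) ^ (-1 : ℤ) * gM w c t x
    rw [h2, h3, mkI_eq (mul_ne_zero h4 hc) (er_ord hxi) (hx.2.2 t.1 (Finset.notMem_empty _)), _root_.zpow_neg_one]
    unfold gM Kc
    rw [scf_scale hs hc, mul_inv]
    have h5 : pj (cA w x) t.1.1 (Fin.last (n t.1.1 + 1)) = cA w x ⟨t.1.1, Fin.last (n t.1.1 + 1)⟩ := rfl
    rw [h5]
    ring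

/-- the torsor -/
def TorYM (n m : ι → ℕ) : Set ((EM n m → ℂ) × ℂ) :=
  {p | ((fun i => bl (fun s => p.1 (Sum.inl s)) i), p.2) ∈ TorG n}

theorem rsT_tor {s : ℝ} (hs : 0 < s) {Y : EM n m → ℂ} {μ : ℂ} :
    (rsT (exM n m) s Y, μ) ∈ TorYM n m ↔ (Y, μ) ∈ TorYM n m := by
  unfold TorYM
  simp only [Set.mem_ofPred_eq]
  have h1 : (fun i => bl (fun t => rsT (exM n m) s Y (Sum.inl t)) i) =
      rs n s (fun i => bl (fun t => Y (Sum.inl t)) i) := by
    funext i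
    ext l j
    show rsT (exM n m) s Y (Sum.inl ⟨i, (l, j)⟩) = (s : ℂ) ^ ep (n i) j * Y (Sum.inl ⟨i, (l, j)⟩)
    unfold rsT ep exM
    simp only [Sum.elim_inl, decide_eq_true_eq]
  rw [h1, rs_tor hs]

theorem tor_iff {x : XX n m q → ℂ} {Y : EM n m → ℂ} : Y ∈ TX n m w hw x ↔ (Y, tpi) ∈ TorYM n m := by
  unfold TX TorYM
  simp only [Set.mem_ofPred_eq]
  exact F0_tor

end scale

/-- the integral array with values in the ring of integers of `ℚ` -/
def zcM [Fintype (EM n m)] {k : ℕ} {h : Type} (S : ℕ) (c : (EM n m → Fin (k + 1)) → h → ℤ) (l : EM n m → Fin (k + 1)) (a : h) : 𝓞 ℚ :=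
  ((S : ℤ) ^ exqT (exM n m) l * c l a : ℤ)

theorem zcM_map [Fintype (EM n m)] {k : ℕ} {h : Type} (S : ℕ) (c : (EM n m → Fin (k + 1)) → h → ℤ) (l : EM n m → Fin (k + 1)) (a : h)
    (φ : ℚ →+* ℂ) : φ (zcM S c l a : ℚ) = (S : ℂ) ^ exqT (exM n m) l * (c l a : ℂ) := by
  unfold zcM
  simp

variable [Fintype ι] [DecidableEq ι]

theorem FX_FM (c : Ps n m) (y : XX n m q → ℂ) : (fun s => FX n m w hw c s y) = FM w c y := by
  funext s
  rcases s with s | s | s <;> rfl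

/-- **Relations given by arrays**: outside the exceptional sets of the family, at the scaled point -/
theorem good_arr {c : Ps n m} {k : ℕ} {h : Type} [Fintype h] {v : h → ℂ} {S : ℕ} (hS : 0 < S)
    {xq : XX n m q → ℚ} {Lc : Set (XX n m q → ℂ)} {A T : ℝ}
    (h1 : ∀ j, Y120.HtLe ℚ T (xq j)) (h2 : (fun j => (algebraMap ℚ ℂ) (xq j)) ∈ Lc) (hL : Lc ⊆ UM w c)
    (h3 : xq ∉ ExcT k (FX n m w hw c) (TX n m w hw) Lc ℚ (algebraMap ℚ ℂ) v A T)
    (d : (EM n m → Fin (k + 1)) → h → ℤ) (hd : ∀ l a, (S : ℝ) ^ (2 * exLT (EM n m) k) * |(d l a : ℝ)| ≤ T ^ A)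
    (h4 : arT (fun l a => (d l a : ℂ)) v (PXM n m (cA w (scx S fun j => (algebraMap ℚ ℂ) (xq j)))
      (fun i => er (pj (cA w (scx S fun j => (algebraMap ℚ ℂ) (xq j))) i)) c
      (cZ w (scx S fun j => (algebraMap ℚ ℂ) (xq j)))) = 0) :
    (∀ Y, (Y, tpi) ∈ TorYM n m → arT (fun l a => (d l a : ℂ)) v Y = 0) ∧
    ∀ Y ∈ TX n m w hw (fun j => (algebraMap ℚ ℂ) (xq j)),
      arT (fun l a => (algebraMap ℚ ℂ) (zcM S d l a : ℚ)) v Y = 0 := by
  classical
  set x : XX n m q → ℂ := fun j => (algebraMap ℚ ℂ) (xq j) with hx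
  have hS0 : (0 : ℝ) < (S : ℝ) := by exact_mod_cast hS
  have hSC : ((S : ℝ) : ℂ) ≠ 0 := by exact_mod_cast hS0.ne'
  have hxU : x ∈ UM w c := hL h2
  have hS1 : (1 : ℝ) ≤ S := by exact_mod_cast hS
  have hcast : (fun (l : EM n m → Fin (k + 1)) (a : h) => ((S : ℝ) : ℂ) ^ exqT (exM n m) l * (d l a : ℂ)) =
      fun l a => (algebraMap ℚ ℂ) (zcM S d l a : ℚ) := by
    funext l a
    rw [zcM_map]
    push_cast
    rfl
  have key : ∀ Y ∈ TX n m w hw x, arT (fun l a => (algebraMap ℚ ℂ) (zcM S d l a : ℚ)) v Y = 0 := by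
    by_contra hne
    apply h3
    refine ⟨h1, h2, zcM S d, ?_, ?_, hne⟩
    · intro l a φ
      rw [zcM_map, norm_mul, norm_pow]
      have e1 : ‖(S : ℂ)‖ = (S : ℝ) := by simp
      have e2 : ‖(d l a : ℂ)‖ = |(d l a : ℝ)| := by
        rw [← Complex.ofReal_intCast, Complex.norm_real, Real.norm_eq_abs]
      rw [e1, e2]
      refine le_trans ?_ (hd l a)
      exact mul_le_mul_of_nonneg_right (pow_le_pow_right₀ hS1 (exqT_le _ l)) (abs_nonneg _)
    · have e1 := arT_scale (exM n m) hS0 (fun l a => (d l a : ℂ)) v (FM w c x)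
      rw [← PXM_scale hS0 hxU, h4, mul_zero, hcast] at e1
      have e3 : arT (fun l a => (algebraMap ℚ ℂ) (zcM S d l a : ℚ)) v (fun s => FX n m w hw c s x) = 0 := by
        rw [FX_FM]
        exact e1.symm
      exact e3
  refine ⟨fun Y hY => ?_, key⟩
  set Z : EM n m → ℂ := fun y => ((S : ℝ) : ℂ) ^ (-(if exM n m y then (-1 : ℤ) else 1)) * Y y with hZ
  have hZY : rsT (exM n m) S Z = Y := rsT_inv (exM n m) hS0 Y
  rw [← hZY, rsT_tor hS0] at hY
  have h6 := key _ (tor_iff.2 hY)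
  have e1 := arT_scale (exM n m) hS0 (fun l a => (d l a : ℂ)) v Z
  rw [hcast, h6, hZY] at e1
  exact (mul_eq_zero.1 e1).resolve_left (pow_ne_zero _ hSC)

/-- relations with powers of `2 π i` as coefficients: all multipliers -/
theorem good_full {c : Ps n m} {k h : ℕ} {S : ℕ} (hS : 0 < S)
    {xq : XX n m q → ℚ} {Lc : Set (XX n m q → ℂ)} {A T : ℝ}
    (h1 : ∀ j, Y120.HtLe ℚ T (xq j)) (h2 : (fun j => (algebraMap ℚ ℂ) (xq j)) ∈ Lc) (hL : Lc ⊆ UM w c)
    (h3 : xq ∉ ExcT k (FX n m w hw c) (TX n m w hw) Lc ℚ (algebraMap ℚ ℂ) (fun a : Fin h => tpi ^ (a : ℕ)) A T)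
    (d : (EM n m → Fin (k + 1)) → Fin h → ℤ) (hd : ∀ l a, (S : ℝ) ^ (2 * exLT (EM n m) k) * |(d l a : ℝ)| ≤ T ^ A)
    (h4 : arT (fun l a => (d l a : ℂ)) (fun a : Fin h => tpi ^ (a : ℕ))
      (PXM n m (cA w (scx S fun j => (algebraMap ℚ ℂ) (xq j)))
      (fun i => er (pj (cA w (scx S fun j => (algebraMap ℚ ℂ) (xq j))) i)) c
      (cZ w (scx S fun j => (algebraMap ℚ ℂ) (xq j)))) = 0) :
    ∀ p ∈ TorYM n m, arT (fun l a => (d l a : ℂ)) (fun a : Fin h => p.2 ^ (a : ℕ)) p.1 = 0 := by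
  classical
  obtain ⟨-, h5⟩ := good_arr hS h1 h2 hL h3 d hd h4
  have hS0 : (0 : ℝ) < (S : ℝ) := by exact_mod_cast hS
  have hSC : ((S : ℝ) : ℂ) ≠ 0 := by exact_mod_cast hS0.ne'
  have hcast : (fun (l : EM n m → Fin (k + 1)) (a : Fin h) => ((S : ℝ) : ℂ) ^ exqT (exM n m) l * (d l a : ℂ)) =
      fun l a => (algebraMap ℚ ℂ) (zcM S d l a : ℚ) := by
    funext l a
    rw [zcM_map]
    push_cast
    rfl
  rintro ⟨Y, μ⟩ hY
  set Z : EM n m → ℂ := fun y => ((S : ℝ) : ℂ) ^ (-(if exM n m y then (-1 : ℤ) else 1)) * Y y with hZ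
  have hZY : rsT (exM n m) S Z = Y := rsT_inv (exM n m) hS0 Y
  rw [← hZY, rsT_tor hS0] at hY
  have h6 := full_free (bfF n w hw) (fun p => xq (Sum.inl p)) (hL h2).1 (fun l a => (zcM S d l a : ℚ))
    (fun Y hY => h5 Y hY) hY.1
    (fun s => Z (Sum.inl s)) (fun i => by
      have e1 := hY.2 i
      show bl (fun s => Z (Sum.inl s)) i *
        ((bfF n w hw).Q i).map (MvPolynomial.aeval (fun p => (algebraMap ℚ ℂ) (xq (Sum.inl p)))) *
        (bl (fun s => Z (Sum.inl s)) i).transpose = μ ^ 1 • (bm ℚ (mi n i)).map (algebraMap ℚ ℂ)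
      rw [Q_eval, pow_one]
      exact e1) (fun s => Z (Sum.inr s))
  have h7 : Sum.elim (fun s => Z (Sum.inl s)) (fun s => Z (Sum.inr s)) = Z := Sum.elim_comp_inl_inr Z
  rw [h7] at h6
  have e1 := arT_scale (exM n m) hS0 (fun l a => (d l a : ℂ)) (fun a : Fin h => μ ^ (a : ℕ)) Z
  rw [hcast, h6, hZY] at e1
  exact (mul_eq_zero.1 e1).resolve_left (pow_ne_zero _ hSC)

end Pool.Agent.N121.MK
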