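import Pool.Agent.N121.MK.Tor

/-!
# The domains
-/

set_option autoImplicit false
set_option linter.unusedSectionVars false

open Complex Set Filter Topology

namespace Pool.Agent.N121.MK

open Pool.Agent.Y890.MV
open Pool.Agent.Y890.SM
open Pool.Agent.Y890.HE (Ord Ord_convex)
open Pool.Agent.N121.OH (rt rt_mem rt_diff)
open Pool.Agent.N121.AH (u0 u0_ne w0 w0_ne U2 U2_open UU bq bq_diffAt er scf scf_ne scf_diff lead_ne mi ahF PA Ph Ph_cont
  Ph_surj Ph_mem pj_Ph slit_conn va va_last va_rt)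
open Pool.Agent.N121.BF (Lm LmC LmC_apply Lm_cont bfF sbl sh sh_cont Lm_sh sh_self evX_sbl XB)
open Pool.Agent.N121.OC (Fr fr fr_an)

variable {ι : Type} {n : ι → ℕ} {m : ι → ℕ} {q : ℕ} {w : Fin (q + 1) → ℂ}

theorem er_diffAt {k : ℕ} {a : Fin (k + 2) → ℂ} (ha : a ∈ U2 k) : DifferentiableAt ℂ (er (n := k)) a := by
  refine differentiableAt_pi.2 fun r => ?_
  unfold er
  refine DifferentiableAt.const_mul ?_ _
  have h1 : DifferentiableAt ℂ (rt u0) (bq a) :=
    (rt_diff u0_ne k).differentiableAt ((Pool.Agent.N121.OH.Un_open u0_ne k).mem_nhds ha.2)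
  have h2 : DifferentiableAt ℂ (fun a : Fin (k + 2) → ℂ => rt u0 (bq a)) a :=
    DifferentiableAt.comp a h1 (bq_diffAt (lead_ne ha))
  exact differentiableAt_pi.1 h2 r

theorem cA_diff [Fintype ι] (w : Fin (q + 1) → ℂ) : Differentiable ℂ (cA (n := n) (m := m) w) := by
  refine differentiable_pi.2 fun s => ?_
  unfold cA Lm
  fun_prop

theorem cU_diff [Fintype ι] (w : Fin (q + 1) → ℂ) (s : Sm m) :
    Differentiable ℂ (fun x : XX n m q → ℂ => cU w x s) := by
  unfold cU Lm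
  fun_prop

theorem cV_diff [Fintype ι] (w : Fin (q + 1) → ℂ) (s : Sm m) :
    Differentiable ℂ (fun x : XX n m q → ℂ => cV w x s) := by
  unfold cV Lm
  fun_prop

theorem cZ_diffAt [Fintype ι] (w : Fin (q + 1) → ℂ) (s : Sm m) {x : XX n m q → ℂ} (hx : cV w x s ≠ 0) :
    DifferentiableAt ℂ (fun x : XX n m q → ℂ => cZ w x s) x := by
  have h1 : DifferentiableAt ℂ (fun x : XX n m q → ℂ => cU w x s) x := cU_diff w s x
  have h2 : DifferentiableAt ℂ (fun x : XX n m q → ℂ => cV w x s) x := cV_diff w s x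
  have h3 : (fun x : XX n m q → ℂ => cZ w x s) = fun x => cU w x s * (cV w x s)⁻¹ := by
    funext x
    exact div_eq_mul_inv _ _
  rw [h3]
  exact h1.mul (h2.fun_inv hx)

theorem cE_diffAt [Fintype ι] (w : Fin (q + 1) → ℂ) (i : ι) {x : XX n m q → ℂ}
    (hx : pj (cA w x) i ∈ U2 (n i)) : DifferentiableAt ℂ (fun x : XX n m q → ℂ => er (pj (cA w x) i)) x := by
  have h1 : DifferentiableAt ℂ (fun x : XX n m q → ℂ => pj (cA w x) i) x := by
    refine differentiableAt_pi.2 fun r => ?_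
    exact differentiable_pi.1 (cA_diff w) ⟨i, r⟩ x
  exact DifferentiableAt.comp x (g := er (n := n i)) (f := fun x : XX n m q → ℂ => pj (cA w x) i) (er_diffAt hx) h1

theorem UU_open [Fintype ι] [DecidableEq ι] (n : ι → ℕ) : IsOpen (UU n) := (ahF n).isOpen

theorem UA_open [Fintype ι] [DecidableEq ι] (w : Fin (q + 1) → ℂ) (c : Ps n m) (A : Finset (Sm m)) :
    IsOpen (UA w c A) := by
  rw [isOpen_iff_mem_nhds]
  rintro x ⟨hx1, hx2, hx3⟩
  have hc : Continuous (cA (n := n) (m := m) w) := (cA_diff w).continuous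
  have h1 : ∀ᶠ y in 𝓝 x, cA w y ∈ UU n := hc.continuousAt.eventually ((UU_open n).mem_nhds hx1)
  have h2 : ∀ᶠ y in 𝓝 x, ∀ s, cV w y s ≠ 0 := by
    rw [Filter.eventually_all]
    intro s
    exact (cV_diff w s).continuous.continuousAt.eventually_ne (hx2 s)
  have h3 : ∀ᶠ y in 𝓝 x, ∀ s, s ∉ A → cZ w y s ∈ Ch (er (pj (cA w y) s.1)) (c s) := by
    rw [Filter.eventually_all]
    intro s
    by_cases hs : s ∈ A
    · exact Eventually.of_forall fun y h => absurd hs h
    · have hz : ContinuousAt (fun y : XX n m q → ℂ => ln (cZ w y s)) x :=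
        ContinuousAt.comp (g := ln) ln_cont.continuousAt (cZ_diffAt w s (hx2 s)).continuousAt
      have he : ∀ r, ContinuousAt (fun y : XX n m q → ℂ => ln (er (pj (cA w y) s.1) r)) x := by
        intro r
        have h4 : ContinuousAt (fun y : XX n m q → ℂ => er (pj (cA w y) s.1) r) x :=
          (differentiableAt_pi.1 (cE_diffAt w s.1 (hx1 s.1)) r).continuousAt
        exact ContinuousAt.comp (g := ln) ln_cont.continuousAt h4
      have h4 : ∀ᶠ y in 𝓝 x, ∀ r : Fin (n s.1 + 1), ((r : ℕ) < c s → ln (er (pj (cA w y) s.1) r) < ln (cZ w y s)) ∧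
          ((c s : ℕ) ≤ r → ln (cZ w y s) < ln (er (pj (cA w y) s.1) r)) := by
        rw [Filter.eventually_all]
        intro r
        by_cases hr : (r : ℕ) < c s
        · filter_upwards [(he r).eventually_lt hz ((hx3 s hs r).1 hr)] with y hy
          exact ⟨fun _ => hy, fun h => absurd hr (not_lt.2 h)⟩
        · filter_upwards [hz.eventually_lt (he r) ((hx3 s hs r).2 (not_lt.1 hr))] with y hy
          exact ⟨fun h => absurd h hr, fun _ => hy⟩
      filter_upwards [h4] with y hy _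
      exact hy
  filter_upwards [h1, h2, h3] with y h1 h2 h3
  exact ⟨h1, h2, h3⟩

theorem UM_open [Fintype ι] [DecidableEq ι] (w : Fin (q + 1) → ℂ) (c : Ps n m) : IsOpen (UM w c) :=
  UA_open w c ∅

theorem Ch_disj {k : ℕ} {e : Fin (k + 1) → ℂ} {a b : Fin (k + 2)} {z : ℂ} (ha : z ∈ Ch e a) (hb : z ∈ Ch e b) : a = b := by
  have key : ∀ a b : Fin (k + 2), z ∈ Ch e a → z ∈ Ch e b → ¬ a < b := by
    intro a b ha hb hab
    have hab' : (a : ℕ) < b := hab
    have hb2 := b.2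
    have h1 := (hb ⟨a, by omega⟩).1 hab'
    have h2 := (ha ⟨a, by omega⟩).2 le_rfl
    linarith
  rcases lt_trichotomy a b with h | h | h
  · exact absurd h (key a b ha hb)
  · exact h
  · exact absurd h (key b a hb ha)

theorem UM_disj {c c' : Ps n m} {x : XX n m q → ℂ} (h : x ∈ UM w c) (h' : x ∈ UM w c') : c = c' := by
  funext s
  exact Ch_disj (h.2.2 s (Finset.notMem_empty s)) (h'.2.2 s (Finset.notMem_empty s))

/-! ### connectedness -/

/-- the coordinates of the marked points -/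
noncomputable def bM (t : (Sm m → ℂ) × (Sm m → ℂ)) (p : Sm m × Fin 2) : ℂ := if p.2 = 0 then t.1 p.1 * t.2 p.1 else t.2 p.1

theorem bM_zero (t : (Sm m → ℂ) × (Sm m → ℂ)) (s : Sm m) : bM t (s, 0) = t.1 s * t.2 s := rfl

theorem bM_one (t : (Sm m → ℂ) × (Sm m → ℂ)) (s : Sm m) : bM t (s, 1) = t.2 s := rfl

theorem bM_cont : Continuous (bM (m := m)) := by
  refine continuous_pi fun p => ?_
  obtain ⟨s, t⟩ := p
  fin_cases t
  · show Continuous fun a : (Sm m → ℂ) × (Sm m → ℂ) => a.1 s * a.2 s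
    fun_prop
  · show Continuous fun a : (Sm m → ℂ) × (Sm m → ℂ) => a.2 s
    fun_prop

/-- parametrisation -/
noncomputable def Pm (w : Fin (q + 1) → ℂ)
    (t : (ι → ℂ) × (((Σ i, Fin (n i + 1)) → ℂ) × (Sm m → ℂ)) × (Sm m → ℂ) × (XX n m q → ℂ)) : XX n m q → ℂ :=
  Sum.elim (sh w (fun p => t.2.2.2 (Sum.inl p)) (Ph n t.1 t.2.1.1))
    (sh w (fun p => t.2.2.2 (Sum.inr p)) (bM (t.2.1.2, t.2.2.1)))

theorem Pm_cA (hw : w 0 = 1) (t : (ι → ℂ) × (((Σ i, Fin (n i + 1)) → ℂ) × (Sm m → ℂ)) × (Sm m → ℂ) × (XX n m q → ℂ)) :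
    cA w (Pm w t) = Ph n t.1 t.2.1.1 := Lm_sh hw _ _

theorem Pm_cU (hw : w 0 = 1) (t : (ι → ℂ) × (((Σ i, Fin (n i + 1)) → ℂ) × (Sm m → ℂ)) × (Sm m → ℂ) × (XX n m q → ℂ))
    (s : Sm m) : cU w (Pm w t) s = t.2.1.2 s * t.2.2.1 s := by
  exact congrFun (Lm_sh hw (fun p => t.2.2.2 (Sum.inr p)) (bM (t.2.1.2, t.2.2.1))) (s, 0)

theorem Pm_cV (hw : w 0 = 1) (t : (ι → ℂ) × (((Σ i, Fin (n i + 1)) → ℂ) × (Sm m → ℂ)) × (Sm m → ℂ) × (XX n m q → ℂ))
    (s : Sm m) : cV w (Pm w t) s = t.2.2.1 s := by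
  exact congrFun (Lm_sh hw (fun p => t.2.2.2 (Sum.inr p)) (bM (t.2.1.2, t.2.2.1))) (s, 1)

/-- the convex set -/
def Qs (c : Ps n m) : Set (((Σ i, Fin (n i + 1)) → ℂ) × (Sm m → ℂ)) :=
  {t | (∀ i, pj t.1 i ∈ Ord (n i)) ∧ ∀ s, t.2 s ∈ Ch (fun r => u0 * t.1 ⟨s.1, r⟩) (c s)}

theorem Qs_convex (c : Ps n m) : Convex ℝ (Qs c) := by
  have lnl : ∀ (a b : ℝ) (x y : ℂ), ln (a • x + b • y) = a * ln x + b * ln y := by
    intro a b x y
    unfold ln
    simp
    ring
  have key : ∀ (a b x x' y y' : ℝ), 0 ≤ a → 0 ≤ b → a + b = 1 → x < x' → y < y' → a * x + b * y < a * x' + b * y' := by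
    intro a b x x' y y' ha hb hab h1 h2
    rcases eq_or_lt_of_le ha with h | h
    · rw [← h] at hab ⊢
      have : b = 1 := by linarith
      rw [this]
      linarith
    · nlinarith [mul_lt_mul_of_pos_left h1 h, mul_le_mul_of_nonneg_left h2.le hb]
  rintro ⟨e, z⟩ ⟨h1, h2⟩ ⟨e', z'⟩ ⟨h1', h2'⟩ a b ha hb hab
  refine ⟨fun i => ?_, fun s r => ⟨fun hr => ?_, fun hr => ?_⟩⟩
  · exact Ord_convex (n i) (h1 i) (h1' i) ha hb hab
  · have e1 := (h2 s r).1 hr
    have e2 := (h2' s r).1 hr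
    have e3 : u0 * (a • e + b • e') ⟨s.1, r⟩ = a • (u0 * e ⟨s.1, r⟩) + b • (u0 * e' ⟨s.1, r⟩) := by
      simp only [Pi.add_apply, Pi.smul_apply, real_smul]
      ring
    show ln (u0 * (a • e + b • e') ⟨s.1, r⟩) < ln (a • z s + b • z' s)
    rw [e3, lnl, lnl]
    exact key a b _ _ _ _ ha hb hab e1 e2
  · have e1 := (h2 s r).2 hr
    have e2 := (h2' s r).2 hr
    have e3 : u0 * (a • e + b • e') ⟨s.1, r⟩ = a • (u0 * e ⟨s.1, r⟩) + b • (u0 * e' ⟨s.1, r⟩) := by
      simp only [Pi.add_apply, Pi.smul_apply, real_smul]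
      ring
    show ln (a • z s + b • z' s) < ln (u0 * (a • e + b • e') ⟨s.1, r⟩)
    rw [e3, lnl, lnl]
    exact key a b _ _ _ _ ha hb hab e1 e2

theorem Pm_cont (w : Fin (q + 1) → ℂ) : Continuous (Pm (n := n) (m := m) w) := by
  refine continuous_pi fun p => ?_
  rcases p with p | p
  · have h1 : Continuous fun t : (ι → ℂ) × (((Σ i, Fin (n i + 1)) → ℂ) × (Sm m → ℂ)) × (Sm m → ℂ) × (XX n m q → ℂ) =>
        sh w (fun p => t.2.2.2 (Sum.inl p)) (Ph n t.1 t.2.1.1) := by
      refine (sh_cont w).comp (Continuous.prodMk ((Ph_cont n).comp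
        (Continuous.prodMk continuous_fst (continuous_fst.comp (continuous_fst.comp continuous_snd)))) ?_)
      exact continuous_pi fun p => (continuous_apply _).comp (continuous_snd.comp (continuous_snd.comp continuous_snd))
    exact (continuous_apply p).comp h1
  · have h1 : Continuous fun t : (ι → ℂ) × (((Σ i, Fin (n i + 1)) → ℂ) × (Sm m → ℂ)) × (Sm m → ℂ) × (XX n m q → ℂ) =>
        sh w (fun p => t.2.2.2 (Sum.inr p)) (bM (t.2.1.2, t.2.2.1)) := by
      refine (sh_cont w).comp (Continuous.prodMk (bM_cont.comp ?_) ?_)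
      · exact Continuous.prodMk (continuous_snd.comp (continuous_fst.comp continuous_snd))
          (continuous_fst.comp (continuous_snd.comp continuous_snd))
      · exact continuous_pi fun p => (continuous_apply _).comp (continuous_snd.comp (continuous_snd.comp continuous_snd))
    exact (continuous_apply p).comp h1

theorem er_Ph {c : ι → ℂ} {e : (Σ i, Fin (n i + 1)) → ℂ} (hc : ∀ i, c i / u0 ∈ Complex.slitPlane)
    (he : ∀ i, pj e i ∈ Ord (n i)) (i : ι) : er (pj (Ph n c e) i) = fun r => u0 * e ⟨i, r⟩ := by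
  funext r
  unfold er
  rw [pj_Ph]
  have h0 : c i ≠ 0 := by
    intro h
    have h1 := Complex.slitPlane_ne_zero (hc i)
    rw [h, zero_div] at h1
    exact h1 rfl
  have h1 : pj e i ∈ Ord (n i) := he i
  rw [va_rt h0 h1]
  rfl

theorem UM_conn [Fintype ι] [DecidableEq ι] (hw : w 0 = 1) (c : Ps n m) : IsPreconnected (UM w c) := by
  have h1 : UM w c = Pm w '' ((Set.univ.pi fun _ => {c : ℂ | c / u0 ∈ Complex.slitPlane}) ×ˢ (Qs c) ×ˢ
      (Set.univ.pi fun _ => {v : ℂ | v ≠ 0}) ×ˢ Set.univ) := by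
    ext x
    constructor
    · rintro ⟨hx1, hx2, hx3⟩
      have h3 := Ph_surj hx1
      have hord : ∀ i, rt u0 (bq (pj (cA w x) i)) ∈ Ord (n i) := fun i => rt_mem (hx1 i).2
      have her : ∀ i, er (pj (cA w x) i) = fun r => u0 * rt u0 (bq (pj (cA w x) i)) r := fun i => rfl
      refine ⟨(fun i => pj (cA w x) i (Fin.last (n i + 1)), (fun p => rt u0 (bq (pj (cA w x) p.1)) p.2, cZ w x),
        cV w x, x), ⟨fun i _ => (hx1 i).1, ⟨fun i => hord i, fun s => ?_⟩, fun s _ => hx2 s, Set.mem_univ _⟩, ?_⟩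
      · have h4 := hx3 s (Finset.notMem_empty s)
        rw [her] at h4
        exact h4
      · funext p
        rcases p with p | p
        · show sh w (fun p => x (Sum.inl p)) (Ph n _ _) p = _
          rw [h3]
          exact congrFun (sh_self w _) p
        · show sh w (fun p => x (Sum.inr p)) (bM (cZ w x, cV w x)) p = _
          have h5 : bM (cZ w x, cV w x) = Lm w (fun p => x (Sum.inr p)) := by
            funext ⟨s, t⟩
            fin_cases t
            · show cZ w x s * cV w x s = cU w x s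
              unfold cZ
              exact div_mul_cancel₀ _ (hx2 s)
            · rfl
          rw [h5]
          exact congrFun (sh_self w _) p
    · rintro ⟨⟨cc, ⟨e, z⟩, v, κ⟩, ⟨hc, ⟨he, hz⟩, hv, _⟩, rfl⟩
      have hc' : ∀ i, cc i / u0 ∈ Complex.slitPlane := fun i => hc i (Set.mem_univ i)
      refine ⟨?_, ?_, ?_⟩
      · rw [Pm_cA hw]
        exact Ph_mem hc' he
      · intro s
        rw [Pm_cV hw]
        exact hv s (Set.mem_univ s)
      · intro s _
        have h5 : cZ w (Pm w (cc, (e, z), v, κ)) s = z s := by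
          unfold cZ
          rw [Pm_cV hw, Pm_cU hw]
          exact mul_div_cancel_right₀ _ (hv s (Set.mem_univ s))
        rw [h5, Pm_cA hw, er_Ph hc' he]
        exact hz s
  rw [h1]
  refine IsPreconnected.image ?_ _ (Pm_cont w).continuousOn
  refine (isPreconnected_univ_pi fun _ => slit_conn).prod ((Qs_convex c).isPreconnected.prod
    ((isPreconnected_univ_pi fun _ => ?_).prod isPreconnected_univ))
  have h2 : {v : ℂ | v ≠ 0} = {(0 : ℂ)}ᶜ := rfl
  rw [h2]
  refine (isConnected_compl_singleton_of_one_lt_rank ?_ (0 : ℂ)).isPreconnected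
  rw [Complex.rank_real_complex]
  norm_num

theorem UM_nonempty [Fintype ι] [DecidableEq ι] (hw : w 0 = 1) (c : Ps n m) : (UM w c).Nonempty := by
  obtain ⟨a, ha⟩ := (ahF n).nonempty
  choose z hz using fun s : Sm m => Ch_nonempty (er_ord (ha s.1)) (c s)
  refine ⟨Sum.elim (sh w 0 a) (sh w 0 (bM (z, fun _ => 1))), ?_⟩
  have h1 : cA w (Sum.elim (sh w 0 a) (sh w 0 (bM (z, fun _ => 1))) : XX n m q → ℂ) = a :=
    Lm_sh hw _ _
  have h2 : ∀ s, cU w (Sum.elim (sh w 0 a) (sh w 0 (bM (z, fun _ => 1))) : XX n m q → ℂ) s = z s := by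
    intro s
    have h3 := congrFun (Lm_sh hw 0 (bM (z, fun _ => 1))) (s, 0)
    rw [bM_zero, mul_one] at h3
    exact h3
  have h3 : ∀ s, cV w (Sum.elim (sh w 0 a) (sh w 0 (bM (z, fun _ => 1))) : XX n m q → ℂ) s = 1 := by
    intro s
    exact congrFun (Lm_sh hw 0 (bM (z, fun _ => 1))) (s, 1)
  refine ⟨?_, ?_, ?_⟩
  · rw [h1]
    exact ha
  · intro s
    rw [h3]
    exact one_ne_zero
  · intro s _
    unfold cZ
    rw [h1, h2, h3, div_one]
    exact hz s

/-! ### analyticity -/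

theorem gM_an [Fintype ι] [DecidableEq ι] (c : Ps n m) (s : Mk n m) :
    AnalyticOnNhd ℂ (gM w c s) (UM w c) := by
  refine Pool.Agent.Y785.MV.Osg.t _ _ (UM_open w c) _ ?_
  intro x hx
  refine DifferentiableAt.differentiableWithinAt ?_
  have hx1 := hx.1 s.1.1
  have hx3 := hx.2.2 s.1 (Finset.notMem_empty _)
  unfold gM
  refine DifferentiableAt.mul ?_ ?_
  · unfold Kc
    refine DifferentiableAt.mul_const ?_ _
    have h1 : DifferentiableAt ℂ (fun a : Fin (n s.1.1 + 2) → ℂ => (scf (n s.1.1) (a (Fin.last (n s.1.1 + 1))))⁻¹)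
        (pj (cA w x) s.1.1) := scf_diff.differentiableAt ((U2_open _).mem_nhds hx1)
    have h2 : DifferentiableAt ℂ (fun x : XX n m q → ℂ => pj (cA w x) s.1.1) x := by
      refine differentiableAt_pi.2 fun r => ?_
      exact differentiable_pi.1 (cA_diff w) ⟨s.1.1, r⟩ x
    exact DifferentiableAt.comp x (g := fun a : Fin (n s.1.1 + 2) → ℂ => (scf (n s.1.1) (a (Fin.last (n s.1.1 + 1))))⁻¹)
      (f := fun x : XX n m q → ℂ => pj (cA w x) s.1.1) h1 h2
  · have h1 := abJ_anJ (c s.1) (s.2 : ℕ) (fun o : Option (Fin (n s.1.1 + 1)) => o.elim (cZ w x s.1) (er (pj (cA w x) s.1.1)))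
      ⟨er_ord hx1, hx3⟩
    have h2 : DifferentiableAt ℂ (fun x : XX n m q → ℂ => (fun o : Option (Fin (n s.1.1 + 1)) =>
        o.elim (cZ w x s.1) (er (pj (cA w x) s.1.1)))) x := by
      refine differentiableAt_pi.2 fun o => ?_
      cases o with
      | none => exact cZ_diffAt w s.1 (hx.2.1 s.1)
      | some i => exact differentiableAt_pi.1 (cE_diffAt w s.1.1 hx1) i
    exact DifferentiableAt.comp x
      (g := fun x : Option (Fin (n s.1.1 + 1)) → ℂ => abJ (fun i => x (some i)) (c s.1) (x none) s.2)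
      (f := fun x : XX n m q → ℂ => (fun o : Option (Fin (n s.1.1 + 1)) =>
        o.elim (cZ w x s.1) (er (pj (cA w x) s.1.1)))) h1.differentiableAt h2

theorem FX_an [Fintype ι] [DecidableEq ι] (hw : w 0 = 1) (c : Ps n m) (s : Ix (mi n) ⊕ (Fr n ⊕ Mk n m)) :
    AnalyticOnNhd ℂ (FX n m w hw c s) (UM w c) := by
  have hL : ∀ x : XX n m q → ℂ, AnalyticAt ℂ (fun x : XX n m q → ℂ => fun i : XB n q => x (Sum.inl i)) x := by
    intro x
    rw [analyticAt_pi_iff]
    intro i
    exact (ContinuousLinearMap.proj (R := ℂ) (φ := fun _ : XX n m q => ℂ) (Sum.inl i)).analyticAt x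
  rcases s with s | s | s
  · intro x hx
    have h1 := (bfF n w hw).an s.1 s.2.1 s.2.2 (fun i => x (Sum.inl i)) hx.1
    exact AnalyticAt.fun_comp (g := fun y : XB n q → ℂ => (bfF n w hw).P s.1 y s.2.1 s.2.2)
      (f := fun x : XX n m q → ℂ => fun i : XB n q => x (Sum.inl i)) h1 (hL x)
  · intro x hx
    have h1 := fr_an s (cA w x) hx.1
    have h2 : AnalyticAt ℂ (fun x : XX n m q → ℂ => cA w x) x := by
      have h3 : AnalyticAt ℂ (fun y : (Σ i, Fin (n i + 2)) × Fin (q + 1) → ℂ => Lm w y) (fun i => x (Sum.inl i)) := by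
        have h4 : (fun y : (Σ i, Fin (n i + 2)) × Fin (q + 1) → ℂ => Lm w y) = fun y => LmC w y := by
          funext y
          rw [LmC_apply]
        rw [h4]
        exact (LmC (X := Σ i, Fin (n i + 2)) w).analyticAt _
      exact AnalyticAt.fun_comp (g := fun y : XB n q → ℂ => Lm w y)
        (f := fun x : XX n m q → ℂ => fun i : XB n q => x (Sum.inl i)) h3 (hL x)
    exact AnalyticAt.fun_comp (g := fun x => fr n s x) h1 h2
  · exact gM_an c s

end Pool.Agent.N121.MK
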