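import Pool.Agent.N207.UH.Fun
import Pool.Agent.N121.AH.Scale

/-!
# Abelian integrals from a branch point to a point in any position
-/

set_option autoImplicit false
set_option linter.unusedSectionVars false

open Complex Set MeasureTheory Filter Topology

namespace Pool.Agent.N121.MK

open Pool.Agent.N207.UH (cl int_an half_mul half_inv half_ne)
open Pool.Agent.N121.AH (u0 u0_ne)

variable {n : ℕ}

/-- twice the real part of `z / u0` -/
def ln (z : ℂ) : ℝ := z.re + z.im

theorem ln_sub (z w : ℂ) : ln (z - w) = ln z - ln w := by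
  unfold ln
  simp
  ring

theorem ln_neg (z : ℂ) : ln (-z) = -ln z := by
  unfold ln
  simp
  ring

theorem ln_add (z w : ℂ) : ln (z + w) = ln z + ln w := by
  unfold ln
  simp
  ring

theorem ln_real (z : ℂ) (r : ℝ) : ln (z * r) = ln z * r := by
  unfold ln
  simp
  ring

theorem ln_cont : Continuous ln := by
  unfold ln
  fun_prop

theorem slit_of {z : ℂ} (h : 0 < ln z) : z / u0 ∈ slitPlane := by
  left
  unfold ln at h
  unfold u0
  rw [div_re]
  simp [normSq_apply]
  norm_num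
  linarith

theorem ne_of {z : ℂ} (h : 0 < ln z) : z / u0 ≠ 0 := slitPlane_ne_zero (slit_of h)

/-- ordered tuples -/
def OrdL (n : ℕ) : Set (Fin (n + 1) → ℂ) := {e | ∀ i j, i < j → ln (e i) < ln (e j)}

/-- the base point -/
def bs (k : Fin (n + 2)) : Fin (n + 1) := ⟨(k : ℕ) - 1, by have := k.2; omega⟩

/-- the signs -/
noncomputable def sg (k : Fin (n + 2)) (i : Fin (n + 1)) : ℂ := if (i : ℕ) < k then 1 else -1

theorem sg_sq (k : Fin (n + 2)) (i : Fin (n + 1)) : sg k i * sg k i = 1 := by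
  unfold sg
  split_ifs <;> norm_num

theorem sg_ne (k : Fin (n + 2)) (i : Fin (n + 1)) : sg k i ≠ 0 := by
  unfold sg
  split_ifs <;> norm_num

/-- the points in position `k` -/
def Ch (e : Fin (n + 1) → ℂ) (k : Fin (n + 2)) : Set ℂ :=
  {z | ∀ i : Fin (n + 1), ((i : ℕ) < k → ln (e i) < ln z) ∧ ((k : ℕ) ≤ i → ln z < ln (e i))}

/-- the path -/
noncomputable def pt (e : Fin (n + 1) → ℂ) (k : Fin (n + 2)) (z : ℂ) (v : ℝ) : ℂ :=
  e (bs k) + (z - e (bs k)) * (v : ℂ) ^ 2

theorem pt_ln (e : Fin (n + 1) → ℂ) (k : Fin (n + 2)) (z : ℂ) (v : ℝ) :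
    ln (pt e k z v) = ln (e (bs k)) + (ln z - ln (e (bs k))) * v ^ 2 := by
  unfold pt
  rw [← ofReal_pow, ln_add, ln_real, ln_sub]

/-- the argument of the root -/
noncomputable def ag (e : Fin (n + 1) → ℂ) (k : Fin (n + 2)) (i : Fin (n + 1)) (x : ℂ) : ℂ := sg k i * (x - e i)

theorem ag_pos {e : Fin (n + 1) → ℂ} {k : Fin (n + 2)} {z : ℂ} (hz : z ∈ Ch e k) (i : Fin (n + 1)) :
    0 < ln (ag e k i z) := by
  unfold ag sg
  split_ifs with h
  · rw [one_mul, ln_sub]
    have := (hz i).1 h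
    linarith
  · rw [neg_one_mul, ln_neg, ln_sub]
    have := (hz i).2 (not_lt.1 h)
    linarith

theorem ag_pt_pos {e : Fin (n + 1) → ℂ} (he : e ∈ OrdL n) {k : Fin (n + 2)} {z : ℂ} (hz : z ∈ Ch e k)
    {i : Fin (n + 1)} (hi : i ≠ bs k) {v : ℝ} (hv : v ∈ Icc (0 : ℝ) 1) : 0 < ln (ag e k i (pt e k z v)) := by
  have hv0 : 0 ≤ v ^ 2 := sq_nonneg v
  have hv1 : v ^ 2 ≤ 1 := by nlinarith [hv.1, hv.2]
  unfold ag sg
  split_ifs with h
  · rw [one_mul, ln_sub, pt_ln]
    have hk : ((bs k : Fin (n + 1)) : ℕ) < k := by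
      show (k : ℕ) - 1 < k
      omega
    have h1 := (hz (bs k)).1 hk
    have h2 : i < bs k := by
      have h3 : (i : ℕ) ≠ (k : ℕ) - 1 := fun h4 => hi (Fin.ext h4)
      show (i : ℕ) < (k : ℕ) - 1
      omega
    have h3 := he _ _ h2
    nlinarith [mul_nonneg (sub_pos.2 h1).le hv0]
  · have hki : (k : ℕ) ≤ i := not_lt.1 h
    rw [neg_one_mul, ln_neg, ln_sub, pt_ln]
    have h1 := (hz i).2 hki
    have h2 : bs k < i := by
      have h3 : (i : ℕ) ≠ (k : ℕ) - 1 := fun h4 => hi (Fin.ext h4)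
      show (k : ℕ) - 1 < (i : ℕ)
      omega
    have h3 := he _ _ h2
    nlinarith [mul_nonneg (sub_pos.2 h1).le hv0, mul_nonneg (sub_pos.2 h3).le (sub_nonneg.2 hv1)]

/-- the product of the inverse roots over all branch points but the base point -/
noncomputable def rG (e : Fin (n + 1) → ℂ) (k : Fin (n + 2)) (x : ℂ) : ℂ :=
  ∏ i ∈ Finset.univ.erase (bs k), (ag e k i x / u0) ^ (-(1 / 2) : ℂ)

/-- the root -/
noncomputable def rS (e : Fin (n + 1) → ℂ) (k : Fin (n + 2)) (x : ℂ) : ℂ :=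
  ∏ i : Fin (n + 1), (ag e k i x / u0) ^ (1 / 2 : ℂ)

/-- the abelian integral from the base point to `z` -/
noncomputable def abJ (e : Fin (n + 1) → ℂ) (k : Fin (n + 2)) (z : ℂ) (j : ℕ) : ℂ :=
  2 * (sg k (bs k) * u0) * (ag e k (bs k) z / u0) ^ (1 / 2 : ℂ) *
    ∫ v in (0 : ℝ)..1, (pt e k z v) ^ j * rG e k (pt e k z v)

section joint

variable {X : Type} [Fintype X] {ε : Fin (n + 1) → X} {p : X} {A : Set (X → ℂ)} {k : Fin (n + 2)}

theorem pt_cont (k : Fin (n + 2)) (ε : Fin (n + 1) → X) (p : X) :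
    Continuous fun q : ℝ × (X → ℂ) => pt (fun i => q.2 (ε i)) k (q.2 p) q.1 := by
  unfold pt
  fun_prop

theorem pt_diff (k : Fin (n + 2)) (ε : Fin (n + 1) → X) (p : X) (v : ℝ) :
    Differentiable ℂ fun x : X → ℂ => pt (fun i => x (ε i)) k (x p) v := by
  unfold pt
  have hd : ∀ k : X, Differentiable ℂ fun e : X → ℂ => e k := fun k => by fun_prop
  exact (hd _).add (((hd p).sub (hd _)).mul_const _)

theorem rG_cont {x : X → ℂ} (he : (fun i => x (ε i)) ∈ OrdL n) (hz : x p ∈ Ch (fun i => x (ε i)) k)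
    {v : ℝ} (hv : v ∈ Icc (0 : ℝ) 1) :
    ContinuousAt (fun q : ℝ × (X → ℂ) => rG (fun i => q.2 (ε i)) k (pt (fun i => q.2 (ε i)) k (q.2 p) q.1)) (v, x) := by
  unfold rG
  refine tendsto_finsetProd _ fun i hi => ?_
  have h1 : Continuous fun p : ℝ × (X → ℂ) => p.2 (ε i) := by fun_prop
  unfold ag
  refine ContinuousAt.cpow (((continuousAt_const.mul ((pt_cont k ε p).continuousAt.sub h1.continuousAt))).div_const _)
    continuousAt_const ?_
  exact slit_of (ag_pt_pos (e := fun i => x (ε i)) he hz (Finset.ne_of_mem_erase hi) hv)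

theorem rG_diff {x : X → ℂ} (he : (fun i => x (ε i)) ∈ OrdL n) (hz : x p ∈ Ch (fun i => x (ε i)) k)
    {v : ℝ} (hv : v ∈ Icc (0 : ℝ) 1) :
    DifferentiableAt ℂ (fun x : X → ℂ => rG (fun i => x (ε i)) k (pt (fun i => x (ε i)) k (x p) v)) x := by
  unfold rG
  have hd : ∀ k : X, Differentiable ℂ fun e : X → ℂ => e k := fun k => by fun_prop
  have H : ∀ i ∈ Finset.univ.erase (bs k), DifferentiableAt ℂ (fun x : X → ℂ =>
      (ag (fun i => x (ε i)) k i (pt (fun i => x (ε i)) k (x p) v) / u0) ^ (-(1 / 2) : ℂ)) x := by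
    intro i hi
    have h1 : DifferentiableAt ℂ (fun x : X → ℂ => ag (fun i => x (ε i)) k i (pt (fun i => x (ε i)) k (x p) v) / u0) x := by
      have h2 : Differentiable ℂ fun x : X → ℂ => sg k i * (pt (fun i => x (ε i)) k (x p) v - x (ε i)) * u0⁻¹ :=
        (((pt_diff k ε p v).sub (hd _)).const_mul _).mul_const _
      exact h2.differentiableAt
    exact DifferentiableAt.cpow_const h1 (slit_of (ag_pt_pos (e := fun i => x (ε i)) he hz (Finset.ne_of_mem_erase hi) hv))
  exact (HasFDerivAt.finsetProd fun i hi => (H i hi).hasFDerivAt).differentiableAt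

/-- analyticity of the abelian integrals in all the variables -/
theorem abJ_an (hA : IsOpen A) (j : ℕ)
    (hA1 : ∀ x ∈ A, (fun i => x (ε i)) ∈ OrdL n ∧ x p ∈ Ch (fun i => x (ε i)) k) :
    AnalyticOnNhd ℂ (fun x : X → ℂ => abJ (fun i => x (ε i)) k (x p) j) A := by
  intro x hx
  unfold abJ
  refine AnalyticAt.mul ?_ ?_
  · refine analyticAt_const.mul ?_
    have hk : ∀ k : X, AnalyticAt ℂ (fun x : X → ℂ => x k) x := fun k =>
      (ContinuousLinearMap.proj (R := ℂ) (φ := fun _ : X => ℂ) k).analyticAt x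
    unfold ag
    refine AnalyticAt.cpow ((analyticAt_const.mul ((hk p).sub (hk _))).div analyticAt_const u0_ne) analyticAt_const ?_
    exact slit_of (ag_pos (hA1 x hx).2 (bs k))
  · exact int_an hA (fun v x => (pt (fun i => x (ε i)) k (x p) v) ^ j *
        rG (fun i => x (ε i)) k (pt (fun i => x (ε i)) k (x p) v))
      (fun v hv x hx => ((pt_cont k ε p).continuousAt.pow j).mul (rG_cont (hA1 x hx).1 (hA1 x hx).2 hv))
      (fun v hv x hx => ((pt_diff k ε p v).differentiableAt.pow j).mul (rG_diff (hA1 x hx).1 (hA1 x hx).2 hv)) x hx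

end joint

theorem rS_sq {e : Fin (n + 1) → ℂ} {k : Fin (n + 2)} {x : ℂ} (hx : x ∈ Ch e k) :
    rS e k x ^ 2 = (∏ i : Fin (n + 1), sg k i / u0) * ∏ i, (x - e i) := by
  unfold rS
  rw [← Finset.prod_pow, ← Finset.prod_mul_distrib]
  refine Finset.prod_congr rfl fun i _ => ?_
  rw [sq, half_mul (ne_of (ag_pos hx i))]
  unfold ag
  ring

theorem rS_an {e : Fin (n + 1) → ℂ} {k : Fin (n + 2)} {x : ℂ} (hx : x ∈ Ch e k) : AnalyticAt ℂ (rS e k) x := by
  unfold rS
  have h : (fun x : ℂ => ∏ i : Fin (n + 1), (ag e k i x / u0) ^ (1 / 2 : ℂ)) =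
      ∏ i : Fin (n + 1), fun x : ℂ => (ag e k i x / u0) ^ (1 / 2 : ℂ) := by
    funext x
    rw [Finset.prod_apply]
  rw [h]
  refine Finset.analyticAt_prod _ fun i _ => ?_
  unfold ag
  refine AnalyticAt.cpow ((analyticAt_const.mul (analyticAt_id.sub analyticAt_const)).div analyticAt_const u0_ne)
    analyticAt_const ?_
  exact slit_of (ag_pos hx i)

theorem rG_rS {e : Fin (n + 1) → ℂ} {k : Fin (n + 2)} {x : ℂ} (hx : x ∈ Ch e k) :
    rG e k x * rS e k x = (ag e k (bs k) x / u0) ^ (1 / 2 : ℂ) := by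
  unfold rG rS
  rw [← Finset.mul_prod_erase _ _ (Finset.mem_univ (bs k)), mul_left_comm, ← Finset.prod_mul_distrib]
  rw [Finset.prod_eq_one, mul_one]
  intro i _
  exact half_inv (ne_of (ag_pos hx i))

/-- the derivative -/
theorem deriv_abJ {e : Fin (n + 1) → ℂ} (he : e ∈ OrdL n) {k : Fin (n + 2)} {z : ℂ} (hz : z ∈ Ch e k) (j : ℕ)
    (hd : DifferentiableAt ℂ (fun z => abJ e k z j) z) : deriv (fun z => abJ e k z j) z * rS e k z = z ^ j := by
  set a := e (bs k) with ha
  set s := sg k (bs k) with hs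
  set g : ℂ → ℂ := fun x => x ^ j * rG e k x with hgdef
  set r := (ag e k (bs k) z / u0) ^ (1 / 2 : ℂ) with hr
  have hza : ag e k (bs k) z / u0 ≠ 0 := ne_of (ag_pos hz (bs k))
  have hr0 : r ≠ 0 := half_ne hza
  have hs0 : s ≠ 0 := sg_ne _ _
  -- the path
  set P : ℂ → ℂ := fun t => a + t ^ 2 * (z - a) with hP
  have hP1 : P 1 = z := by simp [hP]
  have h1 : HasDerivAt (fun t : ℂ => abJ e k (P t) j) (deriv (fun z => abJ e k z j) z * (2 * (z - a))) 1 := by
    have h2 : HasDerivAt (fun z => abJ e k z j) (deriv (fun z => abJ e k z j) z) (P 1) := by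
      rw [hP1]
      exact hd.hasDerivAt
    have h3 : HasDerivAt P (2 * (z - a)) 1 := by
      have h4 := (((hasDerivAt_id (1 : ℂ)).pow 2).mul_const (z - a)).const_add a
      refine h4.congr_deriv ?_
      simp
    exact h2.comp (1 : ℂ) h3
  have h2 := HasDerivAt.comp_ofReal (z := (1 : ℝ)) (by rw [ofReal_one]; exact h1)
  -- the integral
  set κ : ℝ → ℂ := fun s => g (pt e k z s) with hk
  set G : Set ℂ := {x | ∀ i : Fin (n + 1), i ≠ bs k → 0 < ln (ag e k i x)} with hG
  have hGo : IsOpen G := by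
    have h : G = ⋂ i : Fin (n + 1), {x : ℂ | i ≠ bs k → 0 < ln (ag e k i x)} := by
      ext y
      rw [mem_iInter]
      rfl
    rw [h]
    refine isOpen_iInter_of_finite fun i => ?_
    by_cases hc : i ≠ bs k
    · have h1 : {x : ℂ | i ≠ bs k → 0 < ln (ag e k i x)} = {x : ℂ | 0 < ln (ag e k i x)} := by
        ext x
        exact ⟨fun h => h hc, fun h _ => h⟩
      rw [h1]
      exact isOpen_lt continuous_const (ln_cont.comp (by unfold ag; fun_prop))
    · have h1 : {x : ℂ | i ≠ bs k → 0 < ln (ag e k i x)} = univ := by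
        ext x
        exact ⟨fun _ => trivial, fun _ h => absurd h hc⟩
      rw [h1]
      exact isOpen_univ
  have hg : ContinuousOn g G := by
    intro y hy
    refine ContinuousAt.continuousWithinAt ?_
    refine (continuousAt_id.pow j).mul ?_
    unfold rG
    refine tendsto_finsetProd _ fun i hi => ?_
    unfold ag
    refine ContinuousAt.cpow ((continuousAt_const.mul (continuousAt_id.sub continuousAt_const)).div_const _)
      continuousAt_const ?_
    exact slit_of (hy i (Finset.ne_of_mem_erase hi))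
  set O : Set ℝ := {s | pt e k z s ∈ G} with hO
  have hptc : Continuous fun s : ℝ => pt e k z s := by
    unfold pt
    fun_prop
  have hOo : IsOpen O := hGo.preimage hptc
  have hkc : ∀ s ∈ O, ContinuousAt κ s := by
    intro s hs
    have h3 := hg.continuousAt (hGo.mem_nhds hs)
    exact ContinuousAt.comp (f := fun s : ℝ => pt e k z s) (g := g) h3 hptc.continuousAt
  have hsO : ∀ v ∈ Icc (0 : ℝ) 1, v ∈ O := fun v hv i hi => ag_pt_pos he hz hi hv
  have h1O : (1 : ℝ) ∈ O := hsO 1 ⟨zero_le_one, le_rfl⟩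
  have hint : IntervalIntegrable κ volume 0 1 := by
    apply ContinuousOn.intervalIntegrable
    rw [uIcc_of_le zero_le_one]
    intro s hs'
    exact (hkc s (hsO s hs')).continuousWithinAt
  have h3 := (intervalIntegral.integral_hasDerivAt_right hint
    (ContinuousAt.stronglyMeasurableAtFilter hOo hkc 1 h1O) (hkc 1 h1O)).const_mul (2 * (s * u0) * r)
  have h4 : (fun t : ℝ => abJ e k (P (t : ℂ)) j) =ᶠ[𝓝 1] fun t : ℝ => 2 * (s * u0) * r * ∫ s in (0 : ℝ)..t, κ s := by
    filter_upwards [Ioi_mem_nhds (show (0 : ℝ) < 1 from one_pos)] with t ht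
    have ht : 0 < t := ht
    unfold abJ
    have h5 : ag e k (bs k) (P (t : ℂ)) / u0 = ((t ^ 2 : ℝ) : ℂ) * (ag e k (bs k) z / u0) := by
      unfold ag
      rw [hP, ← ha]
      push_cast
      ring
    have h6 : (ag e k (bs k) (P (t : ℂ)) / u0) ^ (1 / 2 : ℂ) = t * r := by
      have h7 : ((t ^ 2 : ℝ) : ℂ) ^ (1 / 2 : ℂ) = t := by
        have h8 : (1 / 2 : ℂ) = ((1 / 2 : ℝ) : ℂ) := by push_cast; rfl
        rw [h8, ← ofReal_cpow (sq_nonneg t), ← Real.sqrt_eq_rpow, Real.sqrt_sq ht.le]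
      rw [h5, hr, ← h7]
      have h9 : ((t ^ 2 : ℝ) : ℂ) ≠ 0 := by exact_mod_cast (pow_pos ht 2).ne'
      rw [cpow_def_of_ne_zero (mul_ne_zero h9 hza), cpow_def_of_ne_zero h9, cpow_def_of_ne_zero hza, ← exp_add,
        log_ofReal_mul (pow_pos ht 2) hza, ofReal_log (sq_nonneg t)]
      congr 1
      ring
    have h7 : ∀ v : ℝ, pt e k (P (t : ℂ)) v = pt e k z (t * v) := by
      intro v
      unfold pt
      rw [hP, ← ha]
      push_cast
      ring
    rw [h6]
    simp only [h7]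
    have h8 := intervalIntegral.integral_comp_mul_left (a := 0) (b := 1) κ ht.ne'
    have h9 : (∫ v in (0 : ℝ)..1, (pt e k z (t * v)) ^ j * rG e k (pt e k z (t * v))) = t⁻¹ • ∫ s in (0 : ℝ)..t, κ s := by
      rw [mul_zero, mul_one] at h8
      exact h8
    rw [h9, Complex.real_smul]
    have h10 : (t : ℂ) ≠ 0 := by exact_mod_cast ht.ne'
    push_cast
    rw [← hs]
    field_simp
  have h5 := h2.unique (h3.congr_of_eventuallyEq h4)
  have h6 : κ 1 = z ^ j * rG e k z := by
    have : pt e k z 1 = z := by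
      unfold pt
      push_cast
      ring
    simp only [hk, hgdef, this]
  rw [h6] at h5
  have h7 := rG_rS hz
  rw [← hr] at h7
  have h8 : z - a = s * u0 * (r * r) := by
    rw [hr, half_mul hza]
    unfold ag
    rw [← hs, ← ha]
    have h9 : s * u0 * (s * (z - a) / u0) = (s * s) * (z - a) * (u0 / u0) := by ring
    rw [h9, sg_sq, div_self u0_ne]
    ring
  apply mul_left_cancel₀ (mul_ne_zero two_ne_zero (mul_ne_zero (mul_ne_zero hs0 u0_ne) (mul_ne_zero hr0 hr0)))
  rw [h8] at h5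
  linear_combination rS e k z * h5 + 2 * (s * u0) * r * z ^ j * h7

end Pool.Agent.N121.MK
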