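import Pool.Agent.N207.UH.Spec
import Pool.Agent.N121.MK.Fun

/-!
# Independence of the abelian integrals as functions of the end point
-/

set_option autoImplicit false
set_option linter.unusedSectionVars false

open Complex Set MeasureTheory Filter Topology

namespace Pool.Agent.N121.MK

open Pool.Agent.N207.UH (hy3' indep_equiv)
open Pool.Agent.Y890.SP (evF)
open Pool.Agent.X255.RH (Indep)
open Pool.Agent.N121.AH (u0 u0_ne)

variable {n : ℕ}

theorem Ch_open (e : Fin (n + 1) → ℂ) (k : Fin (n + 2)) : IsOpen (Ch e k) := by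
  have h : Ch e k = ⋂ i : Fin (n + 1), ({z : ℂ | (i : ℕ) < k → ln (e i) < ln z} ∩
      {z : ℂ | (k : ℕ) ≤ i → ln z < ln (e i)}) := by
    ext z
    rw [mem_iInter]
    rfl
  rw [h]
  refine isOpen_iInter_of_finite fun i => IsOpen.inter ?_ ?_
  · by_cases hc : (i : ℕ) < k
    · have h1 : {z : ℂ | (i : ℕ) < k → ln (e i) < ln z} = {z : ℂ | ln (e i) < ln z} := by
        ext x
        exact ⟨fun h => h hc, fun h _ => h⟩
      rw [h1]
      exact isOpen_lt continuous_const ln_cont
    · have h1 : {z : ℂ | (i : ℕ) < k → ln (e i) < ln z} = univ := by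
        ext x
        exact ⟨fun _ => trivial, fun _ h => absurd h hc⟩
      rw [h1]
      exact isOpen_univ
  · by_cases hc : (k : ℕ) ≤ i
    · have h1 : {z : ℂ | (k : ℕ) ≤ i → ln z < ln (e i)} = {z : ℂ | ln z < ln (e i)} := by
        ext x
        exact ⟨fun h => h hc, fun h _ => h⟩
      rw [h1]
      exact isOpen_lt ln_cont continuous_const
    · have h1 : {z : ℂ | (k : ℕ) ≤ i → ln z < ln (e i)} = univ := by
        ext x
        exact ⟨fun _ => trivial, fun _ h => absurd h hc⟩
      rw [h1]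
      exact isOpen_univ

theorem ln_ofReal (r : ℝ) : ln (r : ℂ) = r := by
  unfold ln
  simp

theorem Ch_nonempty {e : Fin (n + 1) → ℂ} (he : e ∈ OrdL n) (k : Fin (n + 2)) : (Ch e k).Nonempty := by
  have hmono : ∀ i j : Fin (n + 1), i ≤ j → ln (e i) ≤ ln (e j) := by
    intro i j hij
    rcases eq_or_lt_of_le hij with h | h
    · rw [h]
    · exact (he i j h).le
  by_cases h0 : (k : ℕ) = 0
  · refine ⟨((ln (e 0) - 1 : ℝ) : ℂ), fun i => ⟨fun h => absurd h (by omega), fun _ => ?_⟩⟩
    rw [ln_ofReal]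
    have := hmono 0 i (Fin.zero_le i)
    linarith
  · by_cases h1 : (k : ℕ) = n + 1
    · refine ⟨((ln (e (Fin.last n)) + 1 : ℝ) : ℂ), fun i => ⟨fun _ => ?_, fun h => absurd h (by have := i.2; omega)⟩⟩
      rw [ln_ofReal]
      have := hmono i (Fin.last n) (Fin.le_last i)
      linarith
    · have hk := k.2
      have h2 : ln (e ⟨(k : ℕ) - 1, by omega⟩) < ln (e ⟨k, by omega⟩) := he _ _ (by
        show (k : ℕ) - 1 < k
        omega)
      refine ⟨(((ln (e ⟨(k : ℕ) - 1, by omega⟩) + ln (e ⟨k, by omega⟩)) / 2 : ℝ) : ℂ), fun i => ⟨fun h => ?_, fun h => ?_⟩⟩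
      · rw [ln_ofReal]
        have := hmono i ⟨(k : ℕ) - 1, by omega⟩ (by
          show (i : ℕ) ≤ (k : ℕ) - 1
          omega)
        linarith
      · rw [ln_ofReal]
        have := hmono ⟨k, by omega⟩ i h
        linarith

theorem OrdL_inj {e : Fin (n + 1) → ℂ} (he : e ∈ OrdL n) : Function.Injective e := by
  intro i j hij
  rcases lt_trichotomy i j with h | h | h
  · exact absurd (congrArg ln hij) (he _ _ h).ne
  · exact h
  · exact absurd (congrArg ln hij) (he _ _ h).ne'

/-- joint analyticity -/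
theorem abJ_anJ (k : Fin (n + 2)) (j : ℕ) :
    AnalyticOnNhd ℂ (fun x : Option (Fin (n + 1)) → ℂ => abJ (fun i => x (some i)) k (x none) j)
      {x | (fun i => x (some i)) ∈ OrdL n ∧ x none ∈ Ch (fun i => x (some i)) k} := by
  -- the joint function
  set A : Set (Option (Fin (n + 1)) → ℂ) :=
    {x | (fun i => x (some i)) ∈ OrdL n ∧ x none ∈ Ch (fun i => x (some i)) k} with hA
  have hAo : IsOpen A := by
    have h : A = (⋂ i : Fin (n + 1), ⋂ j : Fin (n + 1), {x : Option (Fin (n + 1)) → ℂ | i < j →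
        ln (x (some i)) < ln (x (some j))}) ∩ ⋂ i : Fin (n + 1), ({x : Option (Fin (n + 1)) → ℂ | (i : ℕ) < k →
        ln (x (some i)) < ln (x none)} ∩ {x : Option (Fin (n + 1)) → ℂ | (k : ℕ) ≤ i → ln (x none) < ln (x (some i))}) := by
      ext x
      rw [mem_inter_iff, mem_iInter, mem_iInter]
      simp only [mem_iInter]
      rfl
    have key : ∀ (P : Prop) (a b : Option (Fin (n + 1))), IsOpen {x : Option (Fin (n + 1)) → ℂ | P → ln (x a) < ln (x b)} := by
      intro P a b
      by_cases hc : P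
      · have h1 : {x : Option (Fin (n + 1)) → ℂ | P → ln (x a) < ln (x b)} = {x | ln (x a) < ln (x b)} := by
          ext x
          exact ⟨fun h => h hc, fun h _ => h⟩
        rw [h1]
        exact isOpen_lt (ln_cont.comp (continuous_apply a)) (ln_cont.comp (continuous_apply b))
      · have h1 : {x : Option (Fin (n + 1)) → ℂ | P → ln (x a) < ln (x b)} = univ := by
          ext x
          exact ⟨fun _ => trivial, fun _ h => absurd h hc⟩
        rw [h1]
        exact isOpen_univ
    rw [h]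
    exact IsOpen.inter (isOpen_iInter_of_finite fun i => isOpen_iInter_of_finite fun j => key _ _ _)
      (isOpen_iInter_of_finite fun i => (key _ _ _).inter (key _ _ _))
  exact abJ_an (X := Option (Fin (n + 1))) (ε := some) (p := none) (k := k) hAo j (fun x hx => hx)

theorem abJ_an1 {e : Fin (n + 1) → ℂ} (he : e ∈ OrdL n) (k : Fin (n + 2)) (j : ℕ) :
    AnalyticOnNhd ℂ (fun z => abJ e k z j) (Ch e k) := by
  intro z hz
  have h2 : AnalyticAt ℂ (fun z : ℂ => (fun o : Option (Fin (n + 1)) => o.elim z e)) z := by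
    rw [analyticAt_pi_iff]
    intro o
    cases o with
    | none => exact analyticAt_id
    | some i => exact analyticAt_const
  have h3 := abJ_anJ k j (fun o => o.elim z e) ⟨he, hz⟩
  exact AnalyticAt.comp (g := fun x : Option (Fin (n + 1)) → ℂ => abJ (fun i => x (some i)) k (x none) j)
    (f := fun z : ℂ => (fun o : Option (Fin (n + 1)) => o.elim z e)) h3 h2

/-- the functions -/
noncomputable def Fi (e : Fin (n + 1) → ℂ) (k : Fin (n + 2)) (K : ℂ) : Fin n ⊕ (Empty ⊕ Empty) → ℂ → ℂ
  | Sum.inl j => fun z => K * abJ e k z j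
  | Sum.inr _ => fun _ => 0

theorem Fi_an {e : Fin (n + 1) → ℂ} (he : e ∈ OrdL n) (k : Fin (n + 2)) (K : ℂ) (i : Fin n ⊕ (Empty ⊕ Empty)) :
    AnalyticOnNhd ℂ (Fi e k K i) (Ch e k) := by
  rcases i with j | x
  · exact analyticOnNhd_const.mul (abJ_an1 he k j)
  · exact analyticOnNhd_const

theorem Fi_deriv {e : Fin (n + 1) → ℂ} (he : e ∈ OrdL n) (k : Fin (n + 2)) {K : ℂ} (hK : K ≠ 0) (j : Fin n)
    {z : ℂ} (hz : z ∈ Ch e k) : deriv (Fi e k K (Sum.inl j)) z * (K⁻¹ * rS e k z) = z ^ (j : ℕ) := by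
  have hd := (abJ_an1 he k j z hz).differentiableAt
  have h2 := deriv_abJ he hz j hd
  have h3 : deriv (Fi e k K (Sum.inl j)) z = K * deriv (fun z => abJ e k z j) z := deriv_const_mul _ hd
  rw [h3, ← h2]
  field_simp

/-- **independence** -/
theorem ch_ind {e : Fin (n + 1) → ℂ} (he : e ∈ OrdL n) (k : Fin (n + 2)) {K : ℂ} (hK : K ≠ 0) :
    Indep (Ch e k) (fun (j : Fin n) z => K * abJ e k z j) := by
  classical
  obtain ⟨κ, hκ⟩ : ∃ κ : ℂ, κ = K⁻¹ ^ 2 * ∏ i : Fin (n + 1), sg k i / u0 := ⟨_, rfl⟩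
  have hκ0 : κ ≠ 0 := by
    rw [hκ]
    exact mul_ne_zero (pow_ne_zero _ (inv_ne_zero hK)) (Finset.prod_ne_zero_iff.2 fun i _ => div_ne_zero (sg_ne k i) u0_ne)
  have hsq : Squarefree (Polynomial.C κ * ∏ i, (Polynomial.X - Polynomial.C (e i))) :=
    (Polynomial.Separable.unit_mul (Polynomial.isUnit_C.2 (isUnit_iff_ne_zero.2 hκ0))
      (Polynomial.separable_prod_X_sub_C_iff.2 (OrdL_inj he))).squarefree
  have hSS : ∀ z ∈ Ch e k, (K⁻¹ * rS e k z) ^ 2 = (Polynomial.C κ * ∏ i, (Polynomial.X - Polynomial.C (e i))).eval z := by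
    intro z hz
    rw [mul_pow, rS_sq hz, Polynomial.eval_mul, Polynomial.eval_C, Polynomial.eval_prod, hκ]
    simp only [Polynomial.eval_sub, Polynomial.eval_X, Polynomial.eval_C]
    ring
  have hdeg : n + 1 ≤ (Polynomial.C κ * ∏ i, (Polynomial.X - Polynomial.C (e i))).natDegree := by
    rw [Polynomial.natDegree_C_mul hκ0, Polynomial.natDegree_finsetProd_X_sub_C_eq_card, Finset.card_univ,
      Fintype.card_fin]
  have h1 : Indep (Ch e k) (Fi e k K) :=
    hy3' (ρ := Empty) (k := n) (Ch_open e k) (Ch_nonempty he k) _ hsq (fun z => K⁻¹ * rS e k z)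
      (fun z hz => analyticAt_const.mul (rS_an hz)) hSS hdeg (fun x => x.elim) (fun x => x.elim) (fun x => x.elim)
      (Fi e k K) (Fi_an he k K) (fun j z hz => Fi_deriv he k hK j hz) (fun x => x.elim) (fun x => x.elim)
  have h2 : Indep (Ch e k) (fun i : Fin n => Fi e k K (Sum.inl i)) :=
    indep_equiv (f := Fi e k K) (Sum.inl : Fin n → Fin n ⊕ (Empty ⊕ Empty)) Sum.inl_injective h1
  have h3 : (fun i : Fin n => Fi e k K (Sum.inl i)) = fun (j : Fin n) z => K * abJ e k z j := by
    funext i z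
    rfl
  rw [h3] at h2
  exact h2

/-- independence after an affine substitution -/
theorem indep_aff {σ : Type} {V : Set ℂ} {f : σ → ℂ → ℂ} (h : Indep V f) (c : ℂ) {v : ℂ} (hv : v ≠ 0) :
    Indep {t | (t + c) / v ∈ V} (fun s t => f s ((t + c) / v)) := by
  intro p hp
  set φ : Polynomial ℂ →+* Polynomial ℂ := Polynomial.compRingHom (Polynomial.C v * Polynomial.X - Polynomial.C c) with hφ
  have hφi : Function.Injective φ := by
    rw [injective_iff_map_eq_zero]
    intro q hq
    refine Polynomial.funext fun x => ?_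
    have h1 := congrArg (Polynomial.eval ((x + c) / v)) hq
    rw [hφ, Polynomial.coe_compRingHom_apply, Polynomial.eval_comp, Polynomial.eval_zero] at h1
    simp only [Polynomial.eval_sub, Polynomial.eval_mul, Polynomial.eval_C, Polynomial.eval_X] at h1
    rw [mul_div_cancel₀ _ hv, add_sub_cancel_right] at h1
    rw [h1, Polynomial.eval_zero]
  have h1 := h (MvPolynomial.map φ p) (fun x hx => by
    have h2 : (v * x - c + c) / v = x := by
      rw [sub_add_cancel, mul_div_cancel_left₀ _ hv]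
    have h3 := hp (v * x - c) (by
      show (v * x - c + c) / v ∈ V
      rw [h2]
      exact hx)
    unfold evF at h3 ⊢
    simp only [h2] at h3
    rw [MvPolynomial.eval₂_map, ← h3]
    congr 1
    refine RingHom.ext fun q => ?_
    rw [RingHom.comp_apply, hφ, Polynomial.coe_compRingHom_apply, Polynomial.coe_evalRingHom,
      Polynomial.coe_evalRingHom, Polynomial.eval_comp]
    simp)
  exact MvPolynomial.map_injective φ hφi (by rw [h1, map_zero])

end Pool.Agent.N121.MK
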