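import Pool.Agent.N121.MK.Dom
import Pool.Agent.N121.BF.Null

/-!
# The real points outside the domains
-/

set_option autoImplicit false
set_option linter.unusedSectionVars false

open Complex Set Filter Topology MeasureTheory ComplexConjugate

namespace Pool.Agent.N121.MK

open Pool.Agent.Y890.MV
open Pool.Agent.Y890.SM
open Pool.Agent.N121.OH (cx cx_continuous)
open Pool.Agent.N121.AH (UU er)
open Pool.Agent.N121.BF (Lm bfF XB null_B Lm_conj)

theorem exists_Ch {k : ℕ} {e : Fin (k + 1) → ℂ} (he : e ∈ OrdL k) {z : ℂ} (hz : ∀ r, ln (e r) ≠ ln z) :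
    ∃ c : Fin (k + 2), z ∈ Ch e c := by
  classical
  have hex : ∃ j : ℕ, ∀ r : Fin (k + 1), j ≤ r → ln z < ln (e r) := ⟨k + 1, fun r h => absurd r.2 (not_lt.2 h)⟩
  have h1 := Nat.find_spec hex
  have h2 : Nat.find hex ≤ k + 1 := Nat.find_min' hex fun r h => absurd r.2 (not_lt.2 h)
  refine ⟨⟨Nat.find hex, by omega⟩, fun r => ⟨fun hr => ?_, fun hr => h1 r hr⟩⟩
  by_contra hcon
  have h3 : ln z < ln (e r) := lt_of_le_of_ne (not_lt.1 hcon) (hz r).symm
  refine Nat.find_min hex hr fun r' hr' => ?_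
  rcases eq_or_lt_of_le (show r ≤ r' from hr') with h | h
  · rw [← h]
    exact h3
  · exact h3.trans (he _ _ h)

variable {ι : Type} {n : ι → ℕ} {m : ι → ℕ} {q : ℕ} {w : Fin (q + 1) → ℂ}

section poly

variable {S : Type}

/-- a linear form -/
noncomputable def lfm (v : Fin (q + 1) → ℂ) (s : S) : MvPolynomial (S × Fin (q + 1)) ℂ :=
  ∑ i, MvPolynomial.C (v i) * MvPolynomial.X (s, i)

theorem lfm_eval (v : Fin (q + 1) → ℂ) (s : S) (y : S × Fin (q + 1) → ℂ) : MvPolynomial.eval y (lfm v s) = Lm v y s := by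
  unfold lfm Lm
  simp

/-- the polynomial of the condition that a marked point and a root are on the same level -/
noncomputable def PQ (w : Fin (q + 1) → ℂ) (s t : S) (ε : ℂ) : MvPolynomial (S × Fin (q + 1)) ℂ :=
  MvPolynomial.C ((1 - Complex.I) / 2) *
    ((lfm w s - MvPolynomial.C ε * lfm w t) * lfm (fun i => conj (w i)) t) +
  MvPolynomial.C ((1 + Complex.I) / 2) *
    ((lfm (fun i => conj (w i)) s - MvPolynomial.C (conj ε) * lfm (fun i => conj (w i)) t) * lfm w t)

theorem ln_eq (z : ℂ) : (ln z : ℂ) = (1 - Complex.I) / 2 * z + (1 + Complex.I) / 2 * conj z := by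
  apply Complex.ext
  · unfold ln
    simp
    ring
  · unfold ln
    simp
    ring

theorem PQ_eval (w : Fin (q + 1) → ℂ) (s t : S) (ε : ℂ) (y : S × Fin (q + 1) → ℝ) :
    MvPolynomial.eval (fun p => (y p : ℂ)) (PQ w s t ε) =
      (ln ((Lm w (fun p => (y p : ℂ)) s - ε * Lm w (fun p => (y p : ℂ)) t) * conj (Lm w (fun p => (y p : ℂ)) t)) : ℂ) := by
  rw [ln_eq]
  unfold PQ
  simp only [map_add, map_mul, map_sub, MvPolynomial.eval_C, lfm_eval]
  rw [← Lm_conj, ← Lm_conj, Complex.conj_conj]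

theorem PQ_ne (hw : w 0 = 1) {s t : S} (hst : s ≠ t) (ε : ℂ) : PQ w s t ε ≠ 0 := by
  classical
  intro h0
  set y : S × Fin (q + 1) → ℝ := fun p => if p.2 = 0 then (if p.1 = s then ln ε + 1 else if p.1 = t then 1 else 0) else 0
    with hy
  have h1 := PQ_eval w s t ε y
  have hL : ∀ r, Lm w (fun p => (y p : ℂ)) r = (y (r, 0) : ℂ) := by
    intro r
    unfold Lm
    rw [Finset.sum_eq_single 0]
    · rw [hw, one_mul]
    · intro b _ hb
      rw [hy]
      simp [hb]
    · intro h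
      exact absurd (Finset.mem_univ _) h
  have hys : y (s, 0) = ln ε + 1 := by
    rw [hy]
    simp
  have hyt : y (t, 0) = 1 := by
    rw [hy]
    simp [hst.symm]
  rw [h0, map_zero, hL, hL, hys, hyt] at h1
  have h2 : ln ((((ln ε + 1 : ℝ) : ℂ) - ε * ((1 : ℝ) : ℂ)) * conj ((1 : ℝ) : ℂ)) = 1 := by
    rw [Complex.conj_ofReal, Complex.ofReal_one, mul_one, mul_one, ln_sub, ln_ofReal]
    ring
  rw [h2] at h1
  norm_num at h1

theorem lfm_ne (hw : w 0 = 1) (s : S) : lfm w s ≠ 0 := by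
  classical
  intro h0
  have h1 := lfm_eval w s (fun p : S × Fin (q + 1) => if p.2 = 0 then (1 : ℂ) else 0)
  rw [h0, map_zero] at h1
  unfold Lm at h1
  rw [Finset.sum_eq_single 0] at h1
  · rw [hw] at h1
    norm_num at h1
  · intro b _ hb
    simp [hb]
  · intro h
    exact absurd (Finset.mem_univ _) h

end poly

theorem level_iff {u v e : ℂ} (hv : v ≠ 0) (h : ln e = ln (u / v)) : ln ((u - e * v) * conj v) = 0 := by
  have h1 : (u - e * v) * conj v = (u / v - e) * ((normSq v : ℝ) : ℂ) := by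
    rw [← Complex.mul_conj]
    field_simp
  rw [h1, ln_real, ln_sub, h]
  ring

variable [Fintype ι] [DecidableEq ι]

theorem null_M (hw : w 0 = 1) :
    volume {y : XX n m q → ℝ | cx y ∉ ⋃ c : Ps n m, UM w c} = 0 := by
  classical
  set G : Set (XB n q → ℝ) := {y | cx y ∈ (bfF n w hw).U} with hG
  have hGo : IsOpen G := (bfF n w hw).isOpen.preimage cx_continuous
  have hG0 : volume Gᶜ = 0 := null_B n hw
  set E := MeasurableEquiv.sumPiEquivProdPi (fun _ : XX n m q => ℝ) with hE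
  have hEm : MeasurePreserving E := volume_measurePreserving_sumPiEquivProdPi (fun _ : XX n m q => ℝ)
  -- the three kinds of bad points
  set B1 : Set (XX n m q → ℝ) := E ⁻¹' (Gᶜ ×ˢ univ) with hB1
  set B2 : Sm m → Set (XX n m q → ℝ) := fun s => E ⁻¹' (univ ×ˢ {y | Lm w (cx y) (s, (1 : Fin 2)) = 0}) with hB2
  set B3 : (Σ s : Sm m, Fin (n s.1 + 1)) → Set ((XB n q → ℝ) × (XM m q → ℝ)) := fun s => {p | p.1 ∈ G ∧
    ln ((Lm w (cx p.2) (s.1, (0 : Fin 2)) - er (pj (Lm w (cx p.1)) s.1.1) s.2 * Lm w (cx p.2) (s.1, (1 : Fin 2))) *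
      conj (Lm w (cx p.2) (s.1, (1 : Fin 2)))) = 0} with hB3
  have hsub : {y : XX n m q → ℝ | cx y ∉ ⋃ c : Ps n m, UM w c} ⊆ B1 ∪ ((⋃ s, B2 s) ∪ ⋃ s, E ⁻¹' (B3 s)) := by
    intro y hy
    by_contra hcon
    rw [mem_union, mem_union, not_or, not_or, mem_iUnion, mem_iUnion, not_exists, not_exists] at hcon
    obtain ⟨h1, h2, h3⟩ := hcon
    have hyG : (fun i => y (Sum.inl i)) ∈ G := by
      by_contra h
      exact h1 ⟨h, mem_univ _⟩
    have hyv : ∀ s, cV w (cx y) s ≠ 0 := by
      intro s h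
      exact h2 s ⟨mem_univ _, h⟩
    have hyl : ∀ s : Sm m, ∀ r, ln (er (pj (cA w (cx y)) s.1) r) ≠ ln (cZ w (cx y) s) := by
      intro s r h
      refine h3 ⟨s, r⟩ ⟨hyG, ?_⟩
      exact level_iff (hyv s) h
    have hyA : cA w (cx y) ∈ UU n := hyG
    choose c hc using fun s : Sm m => exists_Ch (er_ord (hyA s.1)) (hyl s)
    exact hy (mem_iUnion.2 ⟨c, hyA, hyv, fun s _ => hc s⟩)
  refine measure_mono_null hsub ?_
  rw [measure_union_null_iff, measure_union_null_iff, measure_iUnion_null_iff, measure_iUnion_null_iff]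
  refine ⟨?_, fun s => ?_, fun s => ?_⟩
  · rw [hB1, hEm.measure_preimage_equiv]
    show (volume.prod volume) (Gᶜ ×ˢ univ) = 0
    rw [Measure.prod_prod, hG0, zero_mul]
  · rw [hB2]
    simp only
    rw [hEm.measure_preimage_equiv]
    show (volume.prod volume) (univ ×ˢ {y : XM m q → ℝ | Lm w (cx y) (s, (1 : Fin 2)) = 0}) = 0
    have h1 : volume {y : XM m q → ℝ | Lm w (cx y) (s, (1 : Fin 2)) = 0} = 0 := by
      have h2 := H450Sp.poly_null (lfm w ((s, (1 : Fin 2)) : Sm m × Fin 2)) (lfm_ne hw _)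
      simp only [lfm_eval] at h2
      exact h2
    rw [Measure.prod_prod, h1, mul_zero]
  · rw [hEm.measure_preimage_equiv]
    have hOo : IsOpen (G ×ˢ (univ : Set (XM m q → ℝ))) := hGo.prod isOpen_univ
    set g : (XB n q → ℝ) × (XM m q → ℝ) → ℝ := fun p =>
      ln ((Lm w (cx p.2) (s.1, (0 : Fin 2)) - er (pj (Lm w (cx p.1)) s.1.1) s.2 * Lm w (cx p.2) (s.1, (1 : Fin 2))) *
      conj (Lm w (cx p.2) (s.1, (1 : Fin 2)))) with hg
    have hLc : ∀ t : Sm m × Fin 2, Continuous fun p : (XB n q → ℝ) × (XM m q → ℝ) => Lm w (cx p.2) t := by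
      intro t
      exact (continuous_apply t).comp ((Pool.Agent.N121.BF.Lm_cont w).comp (cx_continuous.comp continuous_snd))
    have hgc : ContinuousOn g (G ×ˢ univ) := by
      rintro p ⟨hp, -⟩
      refine ContinuousAt.continuousWithinAt ?_
      have h1 : ContinuousAt (fun p : (XB n q → ℝ) × (XM m q → ℝ) => er (pj (Lm w (cx p.1)) s.1.1) s.2) p := by
        have hp' : pj (Lm w (cx p.1)) s.1.1 ∈ Pool.Agent.N121.AH.U2 (n s.1.1) := by
          have h2 : Lm w (cx p.1) ∈ UU n := hp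
          exact h2 s.1.1
        have h3 : ContinuousAt (fun p : (XB n q → ℝ) × (XM m q → ℝ) => pj (Lm w (cx p.1)) s.1.1) p := by
          refine Continuous.continuousAt (continuous_pi fun r => ?_)
          exact (continuous_apply _).comp ((Pool.Agent.N121.BF.Lm_cont w).comp (cx_continuous.comp continuous_fst))
        have h4 : ContinuousAt (fun a => er (n := n s.1.1) a s.2) (pj (Lm w (cx p.1)) s.1.1) :=
          (differentiableAt_pi.1 (er_diffAt hp') s.2).continuousAt
        exact ContinuousAt.comp (g := fun a => er (n := n s.1.1) a s.2)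
          (f := fun p : (XB n q → ℝ) × (XM m q → ℝ) => pj (Lm w (cx p.1)) s.1.1) h4 h3
      refine ContinuousAt.comp (g := ln) ln_cont.continuousAt ?_
      exact ((hLc _).continuousAt.sub (h1.mul (hLc _).continuousAt)).mul
        (Complex.continuous_conj.continuousAt.comp (hLc _).continuousAt)
    have hmeas : MeasurableSet (B3 s) := by
      have h1 : B3 s = (G ×ˢ univ) \ ((G ×ˢ univ) ∩ g ⁻¹' {0}ᶜ) := by
        ext p
        constructor
        · rintro ⟨h1, h2⟩
          exact ⟨⟨h1, mem_univ _⟩, fun h => h.2 h2⟩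
        · rintro ⟨⟨h1, -⟩, h2⟩
          refine ⟨h1, ?_⟩
          by_contra h3
          exact h2 ⟨⟨h1, mem_univ _⟩, h3⟩
      rw [h1]
      exact hOo.measurableSet.diff (hgc.isOpen_inter_preimage hOo isOpen_compl_singleton).measurableSet
    show (volume.prod volume) (B3 s) = 0
    rw [Measure.measure_prod_null hmeas]
    refine Eventually.of_forall fun yA => ?_
    by_cases hyA : yA ∈ G
    · have h1 : Prod.mk yA ⁻¹' (B3 s) = {y : XM m q → ℝ | MvPolynomial.eval (fun p => (y p : ℂ))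
          (PQ w ((s.1, (0 : Fin 2)) : Sm m × Fin 2) (s.1, 1) (er (pj (Lm w (cx yA)) s.1.1) s.2)) = 0} := by
        ext y
        rw [mem_ofPred_eq, PQ_eval, Complex.ofReal_eq_zero]
        exact ⟨fun h => h.2, fun h => ⟨hyA, h⟩⟩
      show volume (Prod.mk yA ⁻¹' (B3 s)) = 0
      rw [h1]
      refine H450Sp.poly_null _ (PQ_ne hw ?_ _)
      intro h
      have h2 := congrArg Prod.snd h
      simp at h2
    · have h1 : Prod.mk yA ⁻¹' (B3 s) = ∅ := by
        ext y
        exact ⟨fun h => absurd h.1 hyA, fun h => absurd h (notMem_empty _)⟩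
      show volume (Prod.mk yA ⁻¹' (B3 s)) = 0
      rw [h1]
      exact measure_empty

end Pool.Agent.N121.MK
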