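import Pool.Agent.N121.MK.Arr
import Pool.Agent.N121.MK.Null
import Pool.Agent.N121.OC.Main

/-!
# Relations between the periods of almost all tuples of hyperelliptic curves with marked fibres
-/

set_option autoImplicit false
set_option linter.unusedSectionVars false

open Complex Set Filter Topology NumberField Matrix MeasureTheory

namespace Pool.Agent.N121.MK

open Pool.Agent.Y118.HP (jm jm_apply jm_det jm_transpose jm_diag jm_map qm bm bm_eq aeval_int_map)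
open Pool.Agent.Y890.MV
open Pool.Agent.Y890.SM
open Pool.Agent.Y124 (Cov)
open Pool.Agent.N121.OH (ptS TorS BX sc cx sd sd_pos sd_one sd2_one lt_sd' sd_le house_int mem_BX exists_M fsl
  few_cov few_near)
open Pool.Agent.N121.AH (mi mm mm_even UU PA U2 fp TorG rs PM scp q0 q0_map er ep PM_mem torG_iff exists_X0 Tp sc_mem
  fp_er er_order lead_ne growth)
open Pool.Agent.N121.BF (Lm Lm_smul bfF XB)
open Pool.Agent.N121.OC (Fr exLT arT arT_rel arT_abs opt oslT descent_free)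

variable {ι : Type} {n : ι → ℕ} {m : ι → ℕ} {q : ℕ} [Fintype ι] [DecidableEq ι]

/-- the weights -/
def wtM (n m : ι → ℕ) (q : ℕ) (_p : XX n m q) : ℕ := 1

theorem wtM_pos (p : XX n m q) : 1 ≤ wtM n m q p := le_rfl

/-- the scaled rational point -/
def xqM (T : ℕ) (a : XX n m q → ℤ) (p : XX n m q) : ℚ := (a p : ℚ) / (sd T : ℚ) ^ 2

theorem xqM_cx (T : ℕ) (a : XX n m q → ℤ) :
    (fun p => (algebraMap ℚ ℂ) (xqM T a p)) = cx (sc (wtM n m q) T a) := by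
  funext p
  unfold xqM cx sc wtM
  simp

theorem xqM_ht {T : ℕ} {a : XX n m q → ℤ} (ha : a ∈ BX (wtM n m q) T) (p : XX n m q) :
    Y120.HtLe ℚ (Tp T) (xqM T a p) := by
  have h1 : |(a p : ℝ)| ≤ (T : ℝ) ^ 1 := by exact_mod_cast mem_BX.1 ha p
  rw [pow_one] at h1
  refine ⟨((a p : ℤ) : 𝓞 ℚ), ((((sd T : ℤ) ^ 2 : ℤ)) : 𝓞 ℚ), ?_, ?_, ?_, ?_⟩
  · have h4 : ((sd T : ℤ) ^ 2 : ℤ) ≠ 0 := by
      have h5 := sd_pos T
      positivity
    exact_mod_cast h4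
  · exact house_int _ (h1.trans (lt_sd' T).le)
  · refine house_int _ ?_
    rw [abs_of_nonneg (by positivity)]
    push_cast
    exact le_rfl
  · unfold xqM
    simp

/-- the relations at a tuple of curves with marked points -/
def GoodM (n m : ι → ℕ) (k : ℕ) (H : ℝ) (ξ : Fin k → ℂ) (a : (Σ i, Fin (n i + 2)) → ℂ) (u v : Sm m → ℂ) : Prop :=
  (∀ s, v s ≠ 0) ∧ ∃ (e : ∀ i, Fin (n i + 1) → ℂ) (c : Ps n m),
    (∀ i, a ⟨i, Fin.last (n i + 1)⟩ ≠ 0 ∧
      fp (pj a i) = Polynomial.C (a ⟨i, Fin.last (n i + 1)⟩) * OH.rp (e i) ∧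
      ∀ r s, r < s → (e i r).re + (e i r).im < (e i s).re + (e i s).im) ∧
    (∀ s, u s / v s ∈ Ch (e s.1) (c s)) ∧
    (PXM n m a e c (fun s => u s / v s), tpi) ∈ TorYM n m ∧
    (∀ (K : Type) [Field K] [NumberField K] (φ : K →+* ℂ) (P : MvPolynomial (Option (EM n m)) (𝓞 K)),
      Module.finrank ℚ K ≤ k → P.totalDegree ≤ k →
      (∀ s (ψ : K →+* ℂ), ‖ψ (algebraMap (𝓞 K) K (P.coeff s))‖ ≤ H) →
      MvPolynomial.eval (opt (PXM n m a e c fun s => u s / v s) tpi) (P.map (φ.comp (algebraMap (𝓞 K) K))) = 0 →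
      ∀ x ∈ TorYM n m, MvPolynomial.eval (opt x.1 x.2) (P.map (φ.comp (algebraMap (𝓞 K) K))) = 0) ∧
    ∀ P : Fin k → MvPolynomial (EM n m) ℤ, (∀ a, (P a).totalDegree ≤ k) → (∀ a s, |(((P a).coeff s : ℤ) : ℝ)| ≤ H) →
      ∑ b, ξ b * MvPolynomial.aeval (PXM n m a e c fun s => u s / v s) (P b) = 0 →
      ∀ Y, (Y, tpi) ∈ TorYM n m → ∑ b, ξ b * MvPolynomial.aeval Y (P b) = 0

/-- the coordinates of a point of the box -/
def toC (a : XX n m q → ℤ) : XX n m q → ℂ := fun p => ((a p : ℤ) : ℂ)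

variable {w : Fin (q + 1) → ℂ} {hw : w 0 = 1}

/-- outside the exceptional sets -/
theorem good_of [Nonempty ι] (k : ℕ) : ∃ C : ℕ, ∀ T : ℕ, C ≤ T → ∀ (c : Ps n m) (ξ : Fin k → ℂ) (Lc : Set (XX n m q → ℂ)),
    Lc ⊆ UM w c → ∀ a ∈ BX (wtM n m q) T, cx (sc (wtM n m q) T a) ∈ Lc →
    xqM T a ∉ ExcT k (FX n m w hw c) (TX n m w hw) Lc ℚ (algebraMap ℚ ℂ) ξ ((exLT (EM n m) k + k : ℕ) : ℝ) (Tp T) →
    xqM T a ∉ ExcT (k * k) (FX n m w hw c) (TX n m w hw) Lc ℚ (algebraMap ℚ ℂ)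
      (fun a : Fin (k * k + 1) => tpi ^ (a : ℕ)) ((exLT (EM n m) (k * k) + (k * k + 1) : ℕ) : ℝ) (Tp T) →
    GoodM n m k ((T : ℝ) ^ k) ξ (cA w (toC a)) (cU w (toC a)) (cV w (toC a)) := by
  classical
  obtain ⟨C, hC⟩ := exists_M (σ := Option (EM n m)) k
  refine ⟨max 1 ⌈C⌉₊, fun T hT c ξ Lc hL a ha haL hE1 hE2 => ?_⟩
  have hT1 : 1 ≤ T := (le_max_left _ _).trans hT
  have hTC : C ≤ T := (Nat.le_ceil C).trans (by exact_mod_cast (le_max_right _ _).trans hT)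
  have hS : 0 < sd T := sd_pos T
  have hS0 : (0 : ℝ) < (sd T : ℝ) := by exact_mod_cast hS
  set x : XX n m q → ℂ := fun p => (algebraMap ℚ ℂ) (xqM T a p) with hx
  have hxL : x ∈ Lc := by
    rw [hx, xqM_cx]
    exact haL
  have hxU : x ∈ UM w c := hL hxL
  have hsize : ∀ (L m : ℕ) (y : ℝ), 0 ≤ y → y ≤ (T : ℝ) ^ m →
      (sd T : ℝ) ^ (2 * L) * y ≤ Tp T ^ ((L + m : ℕ) : ℝ) := by
    intro L m y hy hym
    rw [Real.rpow_natCast, pow_add, pow_mul]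
    have h2 : (T : ℝ) ^ m ≤ Tp T ^ m := pow_le_pow_left₀ (Nat.cast_nonneg _) (lt_sd' T).le _
    exact mul_le_mul le_rfl (hym.trans h2) hy (by unfold Tp; positivity)
  have hscx : scx (sd T) x = toC a := by
    have h1 : ((sd T : ℕ) : ℂ) ≠ 0 := by exact_mod_cast hS.ne'
    funext p
    unfold scx toC
    rw [hx]
    simp only [xqM]
    rw [map_div₀, map_pow, map_natCast, eq_ratCast]
    push_cast
    field_simp
  set A : (Σ i, Fin (n i + 2)) → ℂ := cA w (toC a) with hA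
  have hAs : A = scp n (sd T) (cA w x) := by
    rw [hA, ← hscx, cA_scx]
  have hZs : (fun s => cU w (toC a) s / cV w (toC a) s) = cZ w x := by
    rw [← cZ_scx hS0 x, hscx]
    rfl
  have hU2 : ∀ i, pj A i ∈ U2 (n i) := by
    intro i
    rw [hAs]
    exact (sc_mem hS0 (hxU.1 i)).1
  have her : ∀ i, er (pj A i) = er (pj (cA w x) i) := by
    intro i
    rw [hAs]
    exact Pool.Agent.N121.AH.er_scale hS0 (hxU.1 i)
  have hv0 : ∀ s, cV w (toC a) s ≠ 0 := by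
    intro s
    rw [← hscx, cV_scx]
    have h0 : (((sd T : ℝ) ^ 2 : ℝ) : ℂ) ≠ 0 := by exact_mod_cast (pow_pos hS0 2).ne'
    exact mul_ne_zero h0 (hxU.2.1 s)
  have hPX : PXM n m A (fun i => er (pj A i)) c (fun s => cU w (toC a) s / cV w (toC a) s) =
      PXM n m (cA w (scx (sd T) x)) (fun i => er (pj (cA w (scx (sd T) x)) i)) c (cZ w (scx (sd T) x)) := by
    rw [hscx]
    rfl
  have hmem : (PXM n m A (fun i => er (pj A i)) c (fun s => cU w (toC a) s / cV w (toC a) s), tpi) ∈ TorYM n m := by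
    have h1 : (PM n (scp n (sd T) (cA w x)) (fun i => er (pj (scp n (sd T) (cA w x)) i)), tpi) ∈ TorG n :=
      PM_mem hS0 hxU.1
    rw [← hAs] at h1
    exact h1
  refine ⟨hv0, fun i => er (pj A i), c, fun i => ⟨lead_ne (hU2 i), fp_er (hU2 i), er_order (hU2 i)⟩, fun s => ?_, hmem,
    ?_, ?_⟩
  · have h1 := hxU.2.2 s (Finset.notMem_empty s)
    have h2 := congrFun hZs s
    rw [h2]
    show cZ w x s ∈ Ch (er (pj A s.1)) (c s)
    rw [her]
    exact h1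
  · intro K _ _ φ P hK hPd hPc hP0
    obtain ⟨M, hM, hMd, hMc⟩ := hC T hTC K hK P hPd hPc
    -- the norm vanishes at the period point
    have hM0 : MvPolynomial.aeval (opt (PXM n m A (fun i => er (pj A i)) c
        (fun s => cU w (toC a) s / cV w (toC a) s)) tpi) M = 0 := by
      rw [aeval_int_map, hM, map_prod]
      refine Finset.prod_eq_zero (Finset.mem_univ φ) ?_
      rw [MvPolynomial.aeval_eq_eval]
      exact hP0
    rw [arT_abs M hMd, hPX] at hM0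
    have hv := good_full (w := w) (hw := hw) (c := c) hS (xqM_ht ha) hxL hL hE2
      (fun l (b : Fin (k * k + 1)) => M.coeff (oslT l b)) (fun l b => hsize _ _ _ (abs_nonneg _) (hMc _)) hM0
    choose X0 hX0 using fun i => exists_X0 (n i)
    have hdes := descent_free (n := mi n) (fun i => mm_even (n i)) P φ hX0 (fun z u hz => by
      have h1 := hv (Sum.elim (fun q : Ix (mi n) => z.1 q.1 q.2.1 q.2.2) u, z.2) (torG_iff.2 hz)
      rw [← hM]
      have h2 := arT_abs M hMd (Sum.elim (fun q : Ix (mi n) => z.1 q.1 q.2.1 q.2.2) u) z.2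
      rw [h1, aeval_int_map, MvPolynomial.aeval_eq_eval] at h2
      exact h2)
    intro z hz
    have h1 := hdes (fun i => bl (fun s => z.1 (Sum.inl s)) i, z.2) (fun s => z.1 (Sum.inr s)) (torG_iff.1 hz)
    have h2 : Sum.elim (fun q : Ix (mi n) => bl (fun s => z.1 (Sum.inl s)) q.1 q.2.1 q.2.2)
        (fun s => z.1 (Sum.inr s)) = z.1 := Sum.elim_comp_inl_inr z.1
    simp only at h1
    rw [h2] at h1
    exact h1
  · intro P hPd hPc hP0 Y hY
    rw [arT_rel P hPd] at hP0 ⊢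
    rw [hPX] at hP0
    exact (good_arr (w := w) (hw := hw) (c := c) hS (xqM_ht ha) hxL hL hE1 (fun l b => (P b).coeff (fsl l))
      (fun l b => hsize _ _ _ (abs_nonneg _) (hPc _ _)) hP0).1 Y hY

/-- the theorem for fixed parameters -/
theorem stepM [Nonempty ι] {w : Fin (q + 1) → ℂ} (hw : w 0 = 1) (k : ℕ) {ε : ℝ} (hε : 0 < ε) : ∃ T₀ : ℕ, ∀ T : ℕ, T₀ ≤ T →
    ∀ ξ : Fin k → ℂ, ∃ E ⊆ BX (wtM n m q) T, (E.card : ℝ) ≤ ε * (BX (wtM n m q) T).card ∧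
      ∀ a ∈ BX (wtM n m q) T, a ∉ E → GoodM n m k ((T : ℝ) ^ k) ξ (cA w (toC a)) (cU w (toC a)) (cV w (toC a)) := by
  classical
  obtain ⟨i0⟩ := ‹Nonempty ι›
  have : Nonempty ι := ⟨i0⟩
  have : Nonempty (XX n m q) := ⟨Sum.inl (⟨i0, 0⟩, 0)⟩
  set V : Set (XX n m q → ℂ) := ⋃ c : Ps n m, UM w c with hV
  have hVo : IsOpen V := isOpen_iUnion fun c => UM_open w c
  -- points near the boundary
  obtain ⟨μ, hμ0, hμ⟩ := few_near (U := V) hVo (null_M hw) (w := wtM n m q) wtM_pos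
    (ε := ε / 3) (by positivity)
  set Lc : Ps n m → Set (XX n m q → ℂ) := fun c => InnerM V μ ∩ UM w c with hLc
  have hLc2 : ∀ c, Lc c ⊆ UM w c := fun c => inter_subset_right
  have hLc1 : ∀ c, IsCompact (Lc c) := by
    intro c
    have h1 : Lc c = InnerM V μ ∩ (⋃ c' : {c' : Ps n m // c' ≠ c}, UM w c'.1)ᶜ := by
      ext x
      constructor
      · rintro ⟨hx1, hx2⟩
        refine ⟨hx1, fun h => ?_⟩
        obtain ⟨c', hc'⟩ := mem_iUnion.1 h
        exact c'.2 (UM_disj hc' hx2)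
      · rintro ⟨hx1, hx2⟩
        refine ⟨hx1, ?_⟩
        obtain ⟨c', hc'⟩ := mem_iUnion.1 (innerM_sub _ hμ0 hx1)
        by_cases h : c' = c
        · rw [← h]
          exact hc'
        · exact absurd (mem_iUnion.2 ⟨⟨c', h⟩, hc'⟩) hx2
    rw [h1]
    exact (innerM_compact _ _).inter_right
      (isOpen_iUnion fun c' : {c' : Ps n m // c' ≠ c} => UM_open w c'.1).isClosed_compl
  have hη : 0 < ((2 : ℝ)⁻¹) := by positivity
  choose D1 C1 T1 hC1 _ H1 using fun c : Ps n m => excT_cov (UM_conn hw c) (UM_open w c) (UM_nonempty hw c)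
    (fun s => FX_an hw c s) (tor hw c) (Lc c) (hLc1 c) (hLc2 c) k (Fin k) 1
    ((exLT (EM n m) k + k : ℕ) : ℝ) _ hη
  choose D2 C2 T2 hC2 _ H2 using fun c : Ps n m => excT_cov (UM_conn hw c) (UM_open w c) (UM_nonempty hw c)
    (fun s => FX_an hw c s) (tor hw c) (Lc c) (hLc1 c) (hLc2 c) (k * k)
    (Fin (k * k + 1)) 1 ((exLT (EM n m) (k * k) + (k * k + 1) : ℕ) : ℝ) _ hη
  set Mc : ℝ := Fintype.card (Ps n m) + 1 with hMc
  have hMc0 : 0 < Mc := by positivity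
  choose T3 h3 using fun c : Ps n m => growth (C1 c) (hC1 c) (D1 c) (ε := ε / (3 * Mc)) (by positivity)
  choose T4 h4 using fun c : Ps n m => growth (C2 c) (hC2 c) (D2 c) (ε := ε / (3 * Mc)) (by positivity)
  obtain ⟨T5, h5⟩ := good_of (n := n) (m := m) (w := w) (hw := hw) k
  set sup : (Ps n m → ℕ) → ℕ := fun f => Finset.univ.sup f with hsup
  have hle : ∀ (f : Ps n m → ℕ) (c : Ps n m), f c ≤ sup f := fun f c => Finset.le_sup (Finset.mem_univ c)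
  refine ⟨max 1 (max μ (max (sup fun c => ⌈T1 c⌉₊) (max (sup fun c => ⌈T2 c⌉₊) (max (sup T3) (max (sup T4) T5))))),
    fun T hT ξ => ?_⟩
  simp only [max_le_iff] at hT
  obtain ⟨hT1, hTm, hT2, hT3, hT4, hT5, hT6⟩ := hT
  have hTT : (T : ℝ) ≤ Tp T := (lt_sd' T).le
  have hc1 := fun c => H1 c ℚ (by simp) (algebraMap ℚ ℂ) ξ (Tp T)
    (((Nat.le_ceil (T1 c)).trans (by exact_mod_cast (hle (fun c => ⌈T1 c⌉₊) c).trans hT2)).trans hTT)
  have hc2 := fun c => H2 c ℚ (by simp) (algebraMap ℚ ℂ) (fun a : Fin (k * k + 1) => tpi ^ (a : ℕ)) (Tp T)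
    (((Nat.le_ceil (T2 c)).trans (by exact_mod_cast (hle (fun c => ⌈T2 c⌉₊) c).trans hT3)).trans hTT)
  set E1 : Ps n m → Finset (XX n m q → ℤ) := fun c => (BX (wtM n m q) T).filter fun a => cx (sc (wtM n m q) T a) ∈
    ((fun (s : XX n m q → ℚ) j => (algebraMap ℚ ℂ) (s j)) '' ExcT k (FX n m w hw c) (TX n m w hw) (Lc c) ℚ
      (algebraMap ℚ ℂ) ξ ((exLT (EM n m) k + k : ℕ) : ℝ) (Tp T)) with hE1
  set E2 : Ps n m → Finset (XX n m q → ℤ) := fun c => (BX (wtM n m q) T).filter fun a => cx (sc (wtM n m q) T a) ∈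
    ((fun (s : XX n m q → ℚ) j => (algebraMap ℚ ℂ) (s j)) '' ExcT (k * k) (FX n m w hw c) (TX n m w hw) (Lc c) ℚ
      (algebraMap ℚ ℂ) (fun a : Fin (k * k + 1) => tpi ^ (a : ℕ)) ((exLT (EM n m) (k * k) + (k * k + 1) : ℕ) : ℝ)
      (Tp T)) with hE2
  set E0 := (BX (wtM n m q) T).filter fun a => cx (sc (wtM n m q) T a) ∉ InnerM V μ with hE0
  have hb0 : (E0.card : ℝ) ≤ ε / 3 * (BX (wtM n m q) T).card :=
    hμ T hTm E0 (Finset.filter_subset _ _) (fun a ha => (Finset.mem_filter.1 ha).2)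
  have hb1 : ∀ c, ((E1 c).card : ℝ) ≤ ε / (3 * Mc) * (BX (wtM n m q) T).card := fun c =>
    (few_cov (wtM n m q) wtM_pos (hc1 c) hT1).trans
      (mul_le_mul_of_nonneg_right (h3 c T ((hle T3 c).trans hT4)) (Nat.cast_nonneg _))
  have hb2 : ∀ c, ((E2 c).card : ℝ) ≤ ε / (3 * Mc) * (BX (wtM n m q) T).card := fun c =>
    (few_cov (wtM n m q) wtM_pos (hc2 c) hT1).trans
      (mul_le_mul_of_nonneg_right (h4 c T ((hle T4 c).trans hT5)) (Nat.cast_nonneg _))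
  have hsum : ∀ E : Ps n m → Finset (XX n m q → ℤ), (∀ c, ((E c).card : ℝ) ≤ ε / (3 * Mc) * (BX (wtM n m q) T).card) →
      (((Finset.univ.biUnion E).card : ℕ) : ℝ) ≤ ε / 3 * (BX (wtM n m q) T).card := by
    intro E hE
    have h6 : (((Finset.univ.biUnion E).card : ℕ) : ℝ) ≤ ∑ c, ((E c).card : ℝ) := by
      exact_mod_cast Finset.card_biUnion_le
    refine h6.trans ((Finset.sum_le_sum fun c _ => hE c).trans ?_)
    rw [Finset.sum_const, Finset.card_univ, nsmul_eq_mul]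
    have h7 : (Fintype.card (Ps n m) : ℝ) ≤ Mc := by
      rw [hMc]
      linarith
    have h8 : (0 : ℝ) ≤ (BX (wtM n m q) T).card := Nat.cast_nonneg _
    have h9 : ε / (3 * Mc) * (BX (wtM n m q) T).card = (ε / 3 * (BX (wtM n m q) T).card) / Mc := by
      field_simp
    rw [h9, ← mul_div_assoc, div_le_iff₀ hMc0, mul_comm]
    exact mul_le_mul_of_nonneg_left h7 (by positivity)
  refine ⟨E0 ∪ (Finset.univ.biUnion E1 ∪ Finset.univ.biUnion E2), ?_, ?_, ?_⟩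
  · refine Finset.union_subset (Finset.filter_subset _ _) (Finset.union_subset ?_ ?_)
    · exact Finset.biUnion_subset.2 fun c _ => Finset.filter_subset _ _
    · exact Finset.biUnion_subset.2 fun c _ => Finset.filter_subset _ _
  · have h6 : ((E0 ∪ (Finset.univ.biUnion E1 ∪ Finset.univ.biUnion E2)).card : ℝ) ≤
        E0.card + ((Finset.univ.biUnion E1).card + (Finset.univ.biUnion E2).card) := by
      exact_mod_cast (Finset.card_union_le _ _).trans (Nat.add_le_add_left (Finset.card_union_le _ _) _)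
    have h7 := hsum E1 hb1
    have h8 := hsum E2 hb2
    calc ((E0 ∪ (Finset.univ.biUnion E1 ∪ Finset.univ.biUnion E2)).card : ℝ) ≤
          E0.card + ((Finset.univ.biUnion E1).card + (Finset.univ.biUnion E2).card) := h6
      _ ≤ ε / 3 * (BX (wtM n m q) T).card + (ε / 3 * (BX (wtM n m q) T).card + ε / 3 * (BX (wtM n m q) T).card) := by
          gcongr
      _ = ε * (BX (wtM n m q) T).card := by ring
  · intro a ha hnot
    rw [Finset.mem_union, Finset.mem_union, not_or, not_or] at hnot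
    obtain ⟨hn0, hn1, hn2⟩ := hnot
    have haI : cx (sc (wtM n m q) T a) ∈ InnerM V μ := by
      by_contra hcon
      exact hn0 (Finset.mem_filter.2 ⟨ha, hcon⟩)
    obtain ⟨c, hc⟩ := mem_iUnion.1 (innerM_sub _ hμ0 haI)
    have haL : cx (sc (wtM n m q) T a) ∈ Lc c := ⟨haI, hc⟩
    refine h5 T hT6 c ξ (Lc c) (hLc2 c) a ha haL ?_ ?_
    · intro hcon
      exact hn1 (Finset.mem_biUnion.2 ⟨c, Finset.mem_univ c, Finset.mem_filter.2 ⟨ha, ⟨_, hcon, xqM_cx T a⟩⟩⟩)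
    · intro hcon
      exact hn2 (Finset.mem_biUnion.2 ⟨c, Finset.mem_univ c, Finset.mem_filter.2 ⟨ha, ⟨_, hcon, xqM_cx T a⟩⟩⟩)

/-- **Main theorem.** -/
theorem main [Nonempty ι] (n m : ι → ℕ) {w : Fin (q + 1) → ℂ} (hw : w 0 = 1) : ∃ ω : ℕ → ℕ, Tendsto ω atTop atTop ∧
    ∀ ε : ℝ, 0 < ε → ∃ T₀ : ℕ, ∀ T : ℕ, T₀ ≤ T → ∀ ξ : Fin (ω T) → ℂ, ∃ E ⊆ BX (wtM n m q) T,
      (E.card : ℝ) ≤ ε * (BX (wtM n m q) T).card ∧
      ∀ a ∈ BX (wtM n m q) T, a ∉ E →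
        GoodM n m (ω T) ((T : ℝ) ^ ω T) ξ (cA w (toC a)) (cU w (toC a)) (cV w (toC a)) := by
  classical
  obtain ⟨ω, T₀, hω, -, H⟩ := Pool.Agent.Y890.SP.exists_omega
    (fun k (T : ℝ) => ∀ ξ : Fin k → ℂ, ∃ E ⊆ BX (wtM n m q) ⌊T⌋₊,
      (E.card : ℝ) ≤ ((k : ℝ) + 1)⁻¹ * (BX (wtM n m q) ⌊T⌋₊).card ∧
      ∀ a ∈ BX (wtM n m q) ⌊T⌋₊, a ∉ E →
        GoodM n m k ((⌊T⌋₊ : ℝ) ^ k) ξ (cA w (toC a)) (cU w (toC a)) (cV w (toC a))) (fun k => by
    obtain ⟨T₀, hT₀⟩ := stepM (n := n) (m := m) hw (k + 1) (ε := (((k + 1 : ℕ) : ℝ) + 1)⁻¹) (by positivity)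
    refine ⟨T₀, fun T hT => ?_⟩
    exact hT₀ ⌊T⌋₊ (Nat.le_floor hT))
  refine ⟨fun T => ω (T : ℝ), hω.comp tendsto_natCast_atTop_atTop, fun ε hε => ?_⟩
  obtain ⟨k, hk⟩ := exists_nat_gt ε⁻¹
  have h1 : ∀ᶠ T : ℕ in atTop, k ≤ ω (T : ℝ) := (hω.comp tendsto_natCast_atTop_atTop).eventually_ge_atTop k
  obtain ⟨T₁, hT₁⟩ := eventually_atTop.1 h1
  refine ⟨max T₁ ⌈T₀⌉₊, fun T hT ξ => ?_⟩
  have hT1 : T₁ ≤ T := (le_max_left _ _).trans hT
  have hT0 : T₀ ≤ (T : ℝ) := (Nat.le_ceil T₀).trans (by exact_mod_cast (le_max_right _ _).trans hT)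
  obtain ⟨-, h2⟩ := H (T : ℝ) hT0
  obtain ⟨E, hE1, hE2, hE3⟩ := h2 ξ
  rw [Nat.floor_natCast] at hE1 hE2 hE3
  refine ⟨E, hE1, hE2.trans (mul_le_mul_of_nonneg_right ?_ (Nat.cast_nonneg _)), hE3⟩
  have h3 : (k : ℝ) ≤ ω (T : ℝ) := by exact_mod_cast hT₁ T hT1
  rw [inv_le_comm₀ (by positivity) hε]
  linarith

end Pool.Agent.N121.MK
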