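import Pool.Agent.N121.MK.Ind
import Pool.Agent.N121.OC.Arr

/-!
# The torsor of the periods of curves with marked points
-/

set_option autoImplicit false
set_option linter.unusedSectionVars false

open Complex Set Filter Topology

namespace Pool.Agent.N121.MK

open Pool.Agent.N207.UH (line mix mix_em mix_ne sps sps_ev)
open Pool.Agent.Y890.MV
open Pool.Agent.Y890.SM
open Pool.Agent.Y890.SP (evF)
open Pool.Agent.X255.RH (Indep)
open Pool.Agent.N121.OH (rt rt_mem)
open Pool.Agent.N121.AH (u0 u0_ne w0 w0_ne U2 U2_open UU bq er scf scf_ne lead_ne mi ahF PA)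
open Pool.Agent.N121.BF (Lm LmC LmC_apply bfF sbl sh Lm_sh sh_self evX_sbl XB)
open Pool.Agent.N121.OC (Fr fr free_prod)

section general

variable {X₁ X₂ σ φ : Type} [Fintype X₁] [Fintype X₂] {U₁ : Set (X₁ → ℂ)} {f : σ → (X₁ → ℂ) → ℂ}
  {Tor : (X₁ → ℂ) → Set (σ → ℂ)}

/-- adding free coordinates which depend on further variables -/
theorem torMark (hT : TorM U₁ f Tor) {U : Set (X₁ ⊕ X₂ → ℂ)} (hU : ∀ x ∈ U, (fun i => x (Sum.inl i)) ∈ U₁)
    (fr : φ → (X₁ ⊕ X₂ → ℂ) → ℂ)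
    (hfree : ∀ p : MvPolynomial (σ ⊕ φ) (MvPolynomial (X₁ ⊕ X₂) ℂ),
      (∀ x ∈ U, evX x (Sum.elim (fun s => f s fun i => x (Sum.inl i)) (fun s => fr s x)) p = 0) →
      ∀ x ∈ U, ∀ x₁ ∈ U₁, ∀ z : φ → ℂ,
        evX (Sum.elim x₁ fun i => x (Sum.inr i)) (Sum.elim (fun s => f s x₁) z) p = 0) :
    TorM U (Sum.elim (fun s x => f s fun i => x (Sum.inl i)) fr)
      (fun x => {Y | (fun s => Y (Sum.inl s)) ∈ Tor fun i => x (Sum.inl i)}) := by
  classical
  have hs : ∀ x : X₁ ⊕ X₂ → ℂ, (fun s => Sum.elim (fun s x => f s fun i => x (Sum.inl i)) fr s x) =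
      Sum.elim (fun s => f s fun i => x (Sum.inl i)) (fun s => fr s x) := by
    intro x
    funext s
    rcases s with s | s <;> rfl
  refine ⟨fun x hx => hT.self _ (hU x hx), ?_, ?_, ?_⟩
  · intro p hp x hx Y hY
    have h1 := hfree p (fun x hx => by
      rw [← hs]
      exact hp x hx) x hx
    have h2 := hT.inv (sps (fun s => x (Sum.inr s)) (fun c => Y (Sum.inr c)) p) (fun e he => by
      rw [evM_eq, sps_ev]
      exact h1 e he _) (fun i => x (Sum.inl i)) (hU x hx) (fun q => Y (Sum.inl q)) hY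
    rw [sps_ev] at h2
    have h3 : Sum.elim (fun i => x (Sum.inl i)) (fun s => x (Sum.inr s)) = x := Sum.elim_comp_inl_inr x
    have h4 : Sum.elim (fun q => Y (Sum.inl q)) (fun c => Y (Sum.inr c)) = Y := Sum.elim_comp_inl_inr Y
    rw [h3, h4] at h2
    exact h2
  · intro x hx Y hY
    obtain ⟨γ, h0, h1, h2⟩ := hT.path _ (hU x hx) _ hY
    refine ⟨Sum.elim γ (fun c => Polynomial.C (fr c x) +
      Polynomial.X * Polynomial.C (Y (Sum.inr c) - fr c x)), ?_, ?_, ?_⟩
    · rintro (q | q)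
      · exact h0 q
      · simp
    · rintro (q | q)
      · exact h1 q
      · simp
    · intro t
      exact h2 t
  · obtain ⟨c, hc, hsec⟩ := hT.sec
    have hev : ∀ (x : X₁ ⊕ X₂ → ℂ) (a : MvPolynomial X₁ ℂ),
        MvPolynomial.eval x (MvPolynomial.rename Sum.inl a) = MvPolynomial.eval (fun i => x (Sum.inl i)) a := by
      intro x a
      rw [MvPolynomial.eval_rename]
      rfl
    refine ⟨MvPolynomial.rename Sum.inl c, ?_, ?_⟩
    · rw [Ne, (MvPolynomial.rename_injective _ Sum.inl_injective).eq_iff' (map_zero _)]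
      exact hc
    · intro x0 hx0 hc0 Y0 hY0
      rw [hev] at hc0
      obtain ⟨v, hv, hv0⟩ := hsec _ (hU x0 hx0) hc0 _ hY0
      refine ⟨Sum.elim (fun q => MvPolynomial.rename Sum.inl (v q))
        (fun q => MvPolynomial.C (Y0 (Sum.inr q)) * MvPolynomial.rename Sum.inl c), ?_, ?_⟩
      · intro x hx hcx
        rw [hev] at hcx
        have h1 := hv _ (hU x hx) hcx
        show (fun q => MvPolynomial.eval x (MvPolynomial.rename Sum.inl (v q)) /
          MvPolynomial.eval x (MvPolynomial.rename Sum.inl c)) ∈ Tor _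
        simp only [hev]
        exact h1
      · rintro (q | q)
        · simp only [Sum.elim_inl, hev]
          exact hv0 q
        · simp only [Sum.elim_inr, hev, map_mul, MvPolynomial.eval_C]
          exact mul_div_cancel_right₀ _ hc0

end general

variable {ι : Type} {n : ι → ℕ} {m : ι → ℕ} {q : ℕ}

/-- the marked points -/
abbrev Sm (m : ι → ℕ) : Type := Σ i, Fin (m i)

/-- the coordinates of the marked points -/
abbrev XM (m : ι → ℕ) (q : ℕ) : Type := (Sm m × Fin 2) × Fin (q + 1)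

/-- all coordinates -/
abbrev XX (n m : ι → ℕ) (q : ℕ) : Type := XB n q ⊕ XM m q

/-- the abelian integrals -/
abbrev Mk (n m : ι → ℕ) : Type := Σ s : Sm m, Fin (n s.1)

/-- the positions of the marked points -/
abbrev Ps (n m : ι → ℕ) : Type := ∀ s : Sm m, Fin (n s.1 + 2)

/-- the coefficients -/
def cA (w : Fin (q + 1) → ℂ) (x : XX n m q → ℂ) : (Σ i, Fin (n i + 2)) → ℂ := Lm w fun p => x (Sum.inl p)

/-- the coordinates of the marked points -/
def cU (w : Fin (q + 1) → ℂ) (x : XX n m q → ℂ) (s : Sm m) : ℂ := Lm w (fun p => x (Sum.inr p)) (s, 0)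

/-- the coordinates of the marked points -/
def cV (w : Fin (q + 1) → ℂ) (x : XX n m q → ℂ) (s : Sm m) : ℂ := Lm w (fun p => x (Sum.inr p)) (s, 1)

/-- the marked points -/
noncomputable def cZ (w : Fin (q + 1) → ℂ) (x : XX n m q → ℂ) (s : Sm m) : ℂ := cU w x s / cV w x s

/-- the constant -/
noncomputable def Kc (n : ℕ) (k : Fin (n + 2)) (c : ℂ) : ℂ := (scf n c)⁻¹ * (w0 ^ (n + 1) * Complex.I ^ ((k : ℕ) + 1))⁻¹

theorem Kc_ne {n : ℕ} (k : Fin (n + 2)) {c : ℂ} (hc : c ≠ 0) : Kc n k c ≠ 0 :=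
  mul_ne_zero (inv_ne_zero (scf_ne hc)) (inv_ne_zero (mul_ne_zero (pow_ne_zero _ w0_ne) (pow_ne_zero _ Complex.I_ne_zero)))

/-- the abelian integrals -/
noncomputable def gM (w : Fin (q + 1) → ℂ) (c : Ps n m) (s : Mk n m) (x : XX n m q → ℂ) : ℂ :=
  Kc (n s.1.1) (c s.1) (cA w x ⟨s.1.1, Fin.last (n s.1.1 + 1)⟩) *
    abJ (er (pj (cA w x) s.1.1)) (c s.1) (cZ w x s.1) s.2

/-- the domain: only the marked points outside `A` are restricted -/
def UA (w : Fin (q + 1) → ℂ) (c : Ps n m) (A : Finset (Sm m)) : Set (XX n m q → ℂ) :=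
  {x | cA w x ∈ UU n ∧ (∀ s, cV w x s ≠ 0) ∧ ∀ s, s ∉ A → cZ w x s ∈ Ch (er (pj (cA w x) s.1)) (c s)}

/-- the domain -/
def UM (w : Fin (q + 1) → ℂ) (c : Ps n m) : Set (XX n m q → ℂ) := UA w c ∅

theorem er_ord {k : ℕ} {a : Fin (k + 2) → ℂ} (ha : a ∈ U2 k) : er a ∈ OrdL k :=
  fun i j hij => Pool.Agent.N121.AH.er_order ha i j hij

section free

variable [DecidableEq ι] {w : Fin (q + 1) → ℂ}

theorem cA_upd (x : XX n m q → ℂ) (s0 : Sm m) (t : ℂ) :
    cA w (Function.update x (Sum.inr ((s0, 0), 0)) t) = cA w x := by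
  unfold cA
  congr 1

theorem cV_upd (x : XX n m q → ℂ) (s0 : Sm m) (t : ℂ) :
    cV w (Function.update x (Sum.inr ((s0, 0), 0)) t) = cV w x := by
  funext s
  unfold cV Lm
  refine Finset.sum_congr rfl fun i _ => ?_
  beta_reduce
  rw [Function.update_of_ne]
  intro h
  have h1 := congrArg (fun y : (Sm m × Fin 2) × Fin (q + 1) => y.1.2) (Sum.inr_injective h)
  simp at h1

theorem cU_upd_self (hw : w 0 = 1) (x : XX n m q → ℂ) (s0 : Sm m) (t : ℂ) :
    cU w (Function.update x (Sum.inr ((s0, 0), 0)) t) s0 = t + (cU w x s0 - x (Sum.inr ((s0, 0), 0))) := by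
  unfold cU Lm
  beta_reduce
  rw [← Finset.add_sum_erase _ _ (Finset.mem_univ (0 : Fin (q + 1))),
    ← Finset.add_sum_erase (f := fun i => w i * x (Sum.inr ((s0, 0), i))) _ (Finset.mem_univ (0 : Fin (q + 1)))]
  rw [Function.update_self, hw]
  have h1 : ∑ i ∈ Finset.univ.erase (0 : Fin (q + 1)), w i * Function.update x (Sum.inr ((s0, 0), 0)) t (Sum.inr ((s0, 0), i)) =
      ∑ i ∈ Finset.univ.erase (0 : Fin (q + 1)), w i * x (Sum.inr ((s0, 0), i)) := by
    refine Finset.sum_congr rfl fun i hi => ?_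
    rw [Function.update_of_ne]
    intro h
    have h2 := congrArg (fun y : (Sm m × Fin 2) × Fin (q + 1) => y.2) (Sum.inr_injective h)
    exact Finset.ne_of_mem_erase hi h2
  rw [h1]
  ring

theorem cU_upd_ne (x : XX n m q → ℂ) {s0 s : Sm m} (hs : s ≠ s0) (t : ℂ) :
    cU w (Function.update x (Sum.inr ((s0, 0), 0)) t) s = cU w x s := by
  unfold cU Lm
  refine Finset.sum_congr rfl fun i _ => ?_
  beta_reduce
  rw [Function.update_of_ne]
  intro h
  have h1 := congrArg (fun y : (Sm m × Fin 2) × Fin (q + 1) => y.1.1) (Sum.inr_injective h)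
  exact hs h1

/-- all the functions -/
noncomputable def FM (w : Fin (q + 1) → ℂ) (c : Ps n m) (x : XX n m q → ℂ) : Ix (mi n) ⊕ (Fr n ⊕ Mk n m) → ℂ :=
  Sum.elim (fun s => PA (pj (cA w x) s.1) s.2.1 s.2.2) (Sum.elim (fun s => fr n s (cA w x)) (fun s => gM w c s x))

/-- the values with arbitrary values at the marked points in `A` -/
def Ag (w : Fin (q + 1) → ℂ) (c : Ps n m) (A : Finset (Sm m)) (x : XX n m q → ℂ) (Y : Ix (mi n) ⊕ (Fr n ⊕ Mk n m) → ℂ) :
    Prop :=
  (∀ s, Y (Sum.inl s) = FM w c x (Sum.inl s)) ∧ (∀ s, Y (Sum.inr (Sum.inl s)) = FM w c x (Sum.inr (Sum.inl s))) ∧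
    ∀ s : Mk n m, s.1 ∉ A → Y (Sum.inr (Sum.inr s)) = gM w c s x

/-- one more marked point -/
theorem step (hw : w 0 = 1) (c : Ps n m) (p : MvPolynomial (Ix (mi n) ⊕ (Fr n ⊕ Mk n m)) (MvPolynomial (XX n m q) ℂ))
    (A : Finset (Sm m)) (s0 : Sm m) (hs0 : s0 ∉ A)
    (H : ∀ x ∈ UA w c A, ∀ Y, Ag w c A x Y → evX x Y p = 0) :
    ∀ x ∈ UA w c (insert s0 A), ∀ Y, Ag w c (insert s0 A) x Y → evX x Y p = 0 := by
  classical
  intro x hx Y hY
  obtain ⟨hx1, hx2, hx3⟩ := hx
  obtain ⟨hY1, hY2, hY3⟩ := hY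
  set em : Fin (n s0.1) → Ix (mi n) ⊕ (Fr n ⊕ Mk n m) := fun j => Sum.inr (Sum.inr ⟨s0, j⟩) with hem
  have hemi : Function.Injective em := by
    intro j j' h
    have h1 := Sum.inr_injective (Sum.inr_injective h)
    rw [Sigma.mk.injEq] at h1
    exact eq_of_heq h1.2
  set i0 : XX n m q := Sum.inr ((s0, 0), 0) with hi0
  set cc : ℂ := cU w x s0 - x i0 with hcc
  set e := er (pj (cA w x) s0.1) with he
  have heo : e ∈ OrdL (n s0.1) := er_ord (hx1 s0.1)
  have hlead : cA w x ⟨s0.1, Fin.last (n s0.1 + 1)⟩ ≠ 0 := lead_ne (hx1 s0.1)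
  set V : Set ℂ := {t | (t + cc) / cV w x s0 ∈ Ch e (c s0)} with hV
  have hZ0 : ∀ t, cZ w (Function.update x i0 t) s0 = (t + cc) / cV w x s0 := by
    intro t
    unfold cZ
    rw [cV_upd, cU_upd_self hw]
  have hZ1 : ∀ t s, s ≠ s0 → cZ w (Function.update x i0 t) s = cZ w x s := by
    intro t s hs
    unfold cZ
    rw [cV_upd, cU_upd_ne x hs]
  have hcA : ∀ t, cA w (Function.update x i0 t) = cA w x := fun t => cA_upd x s0 t
  have hind : Indep V (fun (j : Fin (n s0.1)) t => gM w c ⟨s0, j⟩ (Function.update x i0 t)) := by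
    have h1 := indep_aff (ch_ind heo (c s0) (Kc_ne (c s0) hlead)) cc (hx2 s0)
    have h2 : (fun (j : Fin (n s0.1)) t => gM w c ⟨s0, j⟩ (Function.update x i0 t)) =
        fun (s : Fin (n s0.1)) (t : ℂ) => Kc (n s0.1) (c s0) (cA w x ⟨s0.1, Fin.last (n s0.1 + 1)⟩) *
          abJ e (c s0) ((t + cc) / cV w x s0) s := by
      funext j t
      unfold gM
      simp only
      rw [hcA, hZ0]
    rw [h2]
    exact h1
  refine line (i0 := i0) hemi hind fun t ht => ?_
  refine H _ ⟨?_, ?_, ?_⟩ _ ⟨?_, ?_, ?_⟩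
  · rw [hcA]
    exact hx1
  · intro s
    rw [cV_upd]
    exact hx2 s
  · intro s hs
    rw [hcA]
    by_cases hss : s = s0
    · subst hss
      rw [hZ0]
      exact ht
    · rw [hZ1 t s hss]
      exact hx3 s (fun h => (Finset.mem_insert.1 h).elim hss hs)
  · intro s
    rw [mix_ne _ _ (fun t => by simp [hem]), hY1]
    unfold FM
    simp only [Sum.elim_inl]
    rw [hcA]
  · intro s
    rw [mix_ne _ _ (fun t => by simp [hem]), hY2]
    unfold FM
    simp only [Sum.elim_inl, Sum.elim_inr]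
    rw [hcA]
  · rintro ⟨s, j⟩ hs
    by_cases hss : s = s0
    · subst hss
      exact mix_em hemi _ _ j
    · rw [mix_ne _ _ (fun t h => hss (by
        have h1 := Sum.inr_injective (Sum.inr_injective h)
        exact (congrArg Sigma.fst h1).symm)), hY3 ⟨s, j⟩ (fun h => (Finset.mem_insert.1 h).elim hss hs)]
      unfold gM
      simp only
      rw [hcA, hZ1 t s hss]

variable [Fintype ι]

theorem steps (hw : w 0 = 1) (c : Ps n m) (p : MvPolynomial (Ix (mi n) ⊕ (Fr n ⊕ Mk n m)) (MvPolynomial (XX n m q) ℂ))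
    (H : ∀ x ∈ UM w c, evX x (FM w c x) p = 0) (A : Finset (Sm m)) :
    ∀ x ∈ UA w c A, ∀ Y, Ag w c A x Y → evX x Y p = 0 := by
  classical
  induction A using Finset.induction_on with
  | empty =>
    intro x hx Y hY
    have h1 : Y = FM w c x := by
      funext s
      rcases s with s | s | s
      · exact hY.1 s
      · exact hY.2.1 s
      · exact hY.2.2 s (Finset.notMem_empty _)
    rw [h1]
    exact H x hx
  | insert s0 A hs0 ih => exact step hw c p A s0 hs0 ih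

/-- the periods of the third kind are free -/
theorem free_bf (hw : w 0 = 1) (p : MvPolynomial (Ix (mi n) ⊕ Fr n) (MvPolynomial (XB n q) ℂ))
    (hp : ∀ y ∈ (bfF n w hw).U, evX y (Sum.elim (fun s => (bfF n w hw).f s y) (fun s => fr n s (Lm w y))) p = 0) :
    ∀ y ∈ (bfF n w hw).U, ∀ z : Fr n → ℂ, evX y (Sum.elim (fun s => (bfF n w hw).f s y) z) p = 0 := by
  intro y hy z
  have h1 := free_prod (MvPolynomial.map (sbl w y) p) (fun x hx => by
    rw [evX_sbl]
    have h2 : sh w y x ∈ (bfF n w hw).U := by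
      show Lm w (sh w y x) ∈ UU n
      rw [Lm_sh hw]
      exact hx
    have h3 := hp _ h2
    have h4 : (fun s => (bfF n w hw).f s (sh w y x)) = fun s => (ahF n).f s x := by
      funext s
      show PA (pj (Lm w (sh w y x)) s.1) s.2.1 s.2.2 = PA (pj x s.1) s.2.1 s.2.2
      rw [Lm_sh hw]
    have h5 : (fun s => fr n s (Lm w (sh w y x))) = fun s => fr n s x := by
      rw [Lm_sh hw]
    rw [h4, h5] at h3
    exact h3) (Lm w y) hy z
  rw [evX_sbl, sh_self] at h1
  exact h1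

/-- the free functions -/
noncomputable def FF (w : Fin (q + 1) → ℂ) (c : Ps n m) : Fr n ⊕ Mk n m → (XX n m q → ℂ) → ℂ :=
  Sum.elim (fun s x => fr n s (cA w x)) (gM w c)

/-- all the functions -/
noncomputable def FX (n m : ι → ℕ) (w : Fin (q + 1) → ℂ) (hw : w 0 = 1) (c : Ps n m) :
    Ix (mi n) ⊕ (Fr n ⊕ Mk n m) → (XX n m q → ℂ) → ℂ :=
  Sum.elim (fun s x => (bfF n w hw).f s fun i => x (Sum.inl i)) (FF w c)

/-- the torsor -/
def TX (n m : ι → ℕ) (w : Fin (q + 1) → ℂ) (hw : w 0 = 1) (x : XX n m q → ℂ) :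
    Set (Ix (mi n) ⊕ (Fr n ⊕ Mk n m) → ℂ) :=
  {Y | (fun s => Y (Sum.inl s)) ∈ (bfF n w hw).Tor fun i => x (Sum.inl i)}


theorem free_all (hw : w 0 = 1) (c : Ps n m)
    (p : MvPolynomial (Ix (mi n) ⊕ (Fr n ⊕ Mk n m)) (MvPolynomial (XX n m q) ℂ))
    (hp : ∀ x ∈ UM w c, evX x (Sum.elim (fun s => (bfF n w hw).f s fun i => x (Sum.inl i)) (fun s => FF w c s x)) p = 0) :
    ∀ x ∈ UM w c, ∀ x₁ ∈ (bfF n w hw).U, ∀ z : Fr n ⊕ Mk n m → ℂ,
      evX (Sum.elim x₁ fun i => x (Sum.inr i)) (Sum.elim (fun s => (bfF n w hw).f s x₁) z) p = 0 := by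
  classical
  have H : ∀ x ∈ UM w c, evX x (FM w c x) p = 0 := by
    intro x hx
    rw [← hp x hx]
    congr 1
    funext s
    rcases s with s | s | s <;> rfl
  intro x hx x₁ hx₁ z
  -- all marked points are free
  have h1 : ∀ y ∈ (bfF n w hw).U, evX (Sum.elim y fun i => x (Sum.inr i))
      (Sum.elim (fun s => (bfF n w hw).f s y) (Sum.elim (fun s => fr n s (Lm w y)) (fun s => z (Sum.inr s)))) p = 0 := by
    intro y hy
    refine steps hw c p H Finset.univ _ ⟨?_, ?_, ?_⟩ _ ⟨fun s => rfl, fun s => rfl, fun s hs =>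
      absurd (Finset.mem_univ _) hs⟩
    · exact hy
    · exact hx.2.1
    · intro s hs
      exact absurd (Finset.mem_univ _) hs
  -- the polynomial in the other variables
  set E : (Ix (mi n) ⊕ Fr n) ⊕ Mk n m ≃ Ix (mi n) ⊕ (Fr n ⊕ Mk n m) := Equiv.sumAssoc _ _ _ with hE
  set p' := MvPolynomial.rename E.symm p with hp'
  have hren : ∀ (x : XX n m q → ℂ) (Z : Ix (mi n) ⊕ Fr n → ℂ) (W : Mk n m → ℂ),
      evX x (Sum.elim Z W) p' = evX x (Sum.elim (fun s => Z (Sum.inl s)) (Sum.elim (fun s => Z (Sum.inr s)) W)) p := by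
    intro x Z W
    rw [hp']
    unfold evX
    rw [MvPolynomial.eval₂_rename]
    congr 1
    funext s
    rcases s with s | s | s <;> rfl
  have h2 := free_bf hw (sps (fun i => x (Sum.inr i)) (fun s => z (Sum.inr s)) p') (fun y hy => by
    rw [sps_ev, hren]
    exact h1 y hy) x₁ hx₁ (fun s => z (Sum.inl s))
  rw [sps_ev, hren] at h2
  rw [← h2]
  congr 1
  funext s
  rcases s with s | s | s <;> rfl

/-- **The torsor** -/
theorem tor (hw : w 0 = 1) (c : Ps n m) : TorM (UM w c) (FX n m w hw c) (TX n m w hw) :=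
  torMark (bfF n w hw).tor (fun x hx => hx.1) (FF w c) (free_all hw c)

end free

end Pool.Agent.N121.MK
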